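import Pool.Agent.H97.Reg.Small

set_option autoImplicit false

/-! The two bad events for the whole matrix. -/

open Real MeasureTheory ProbabilityTheory

namespace Pool.Agent.H97.Reg

variable {n : ℕ}

/-- Law of a matrix with independent entries. -/
noncomputable def muM (n : ℕ) (ν : Measure ℝ) : Measure (Fin n → Fin n → ℝ) :=
  Measure.infinitePi (fun _ : Fin n => Measure.infinitePi (fun _ : Fin n => ν))

/-- Many entries would have to be removed. -/
def Bad1 (n : ℕ) (ε : ℝ) (m0 N : ℕ) : Set (Fin n → Fin n → ℝ) :=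
  {a | exp (ε * n / 4) ≤ ∏ i, hw n m0 N (a i)}

theorem measure_Bad1 {ν : Measure ℝ} (hν : IsLaw ν) (hn : 1 ≤ n) {ε : ℝ} (hε : 0 < ε)
    (hε6 : ε ≤ 1 / 6) (m0 N : ℕ) (hm0 : log (1 / ε) ≤ 2 ^ m0) :
    muM n ν (Bad1 n ε m0 N) ≤ ENNReal.ofReal (exp (-(ε * n) / 12)) := by
  have := hν.prob
  have hn0 : (0 : ℝ) < n := by exact_mod_cast hn
  set δ := 2 * exp (-20 * 2 ^ m0) with hδ
  have hint : ∫⁻ a, ENNReal.ofReal (∏ i, hw n m0 N (a i)) ∂(muM n ν) ≤
      ENNReal.ofReal (exp (δ * n)) := by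
    have h1 : ∀ a : Fin n → Fin n → ℝ, ENNReal.ofReal (∏ i, hw n m0 N (a i)) =
        ∏ i, ENNReal.ofReal (hw n m0 N (a i)) := by
      intro a
      rw [ENNReal.ofReal_prod_of_nonneg (fun i _ => zero_le_one.trans (one_le_hw _ _ _ _))]
    simp_rw [h1]
    unfold muM
    rw [lintegral_prod_pi (Measure.infinitePi (fun _ : Fin n => ν))
      (fun (_ : Fin n) y => ENNReal.ofReal (hw n m0 N y))
      (fun _ => (measurable_hw (n := n) (n : ℝ) m0 N).ennreal_ofReal)]
    rw [Finset.prod_const, Finset.card_univ, Fintype.card_fin]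
    calc _ ≤ (ENNReal.ofReal (1 + δ)) ^ n := by
          gcongr
          exact row_hw hν hn m0 N
      _ = ENNReal.ofReal ((1 + δ) ^ n) := by rw [ENNReal.ofReal_pow (by positivity)]
      _ ≤ ENNReal.ofReal (exp (δ * n)) := by
          apply ENNReal.ofReal_le_ofReal
          have h2 : 1 + δ ≤ exp δ := by
            have := add_one_le_exp δ
            linarith
          calc (1 + δ) ^ n ≤ exp δ ^ n := by gcongr
            _ = exp (δ * n) := by rw [← exp_nat_mul]; congr 1; ring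
  have hδε : δ ≤ ε / 6 := by
    have h1 : exp (-20 * 2 ^ m0) ≤ exp (-20 * log (1 / ε)) := by
      apply exp_le_exp.2
      linarith
    have h2 : exp (-20 * log (1 / ε)) = ε ^ 20 := by
      rw [one_div, log_inv]
      have : -20 * -log ε = (20 : ℕ) * log ε := by push_cast; ring
      rw [this, exp_nat_mul, exp_log hε]
    have h3 : ε ^ 20 ≤ ε * (1 / 6) ^ 19 := by
      rw [pow_succ, mul_comm]
      gcongr
    rw [hδ]
    calc 2 * exp (-20 * 2 ^ m0) ≤ 2 * (ε * (1 / 6) ^ 19) := by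
          rw [h2] at h1
          linarith
      _ ≤ ε / 6 := by
          have : (2 : ℝ) * (1 / 6) ^ 19 ≤ 1 / 6 := by norm_num
          nlinarith
  have hc : ENNReal.ofReal (exp (ε * n / 4)) ≠ 0 := by simp [exp_pos]
  have hmk := mul_meas_ge_le_lintegral₀ (μ := muM n ν)
    (f := fun a => ENNReal.ofReal (∏ i, hw n m0 N (a i))) (by
      refine Measurable.aemeasurable ?_
      refine Measurable.ennreal_ofReal ?_
      refine Finset.measurable_prod _ fun i _ => ?_
      exact (measurable_hw (n := n) (n : ℝ) m0 N).comp (measurable_pi_apply i))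
    (ENNReal.ofReal (exp (ε * n / 4)))
  have hset : Bad1 n ε m0 N ⊆ {a | ENNReal.ofReal (exp (ε * n / 4)) ≤
      ENNReal.ofReal (∏ i, hw n m0 N (a i))} := fun a ha => ENNReal.ofReal_le_ofReal ha
  have h5 : ENNReal.ofReal (exp (ε * n / 4)) * muM n ν (Bad1 n ε m0 N) ≤
      ENNReal.ofReal (exp (ε * n / 4)) * ENNReal.ofReal (exp (-(ε * n) / 12)) := by
    calc _ ≤ ENNReal.ofReal (exp (ε * n / 4)) * muM n ν
          {a | ENNReal.ofReal (exp (ε * n / 4)) ≤ ENNReal.ofReal (∏ i, hw n m0 N (a i))} := by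
          gcongr
      _ ≤ ENNReal.ofReal (exp (δ * n)) := hmk.trans hint
      _ ≤ _ := by
          rw [← ENNReal.ofReal_mul (exp_pos _).le, ← exp_add]
          apply ENNReal.ofReal_le_ofReal
          apply exp_le_exp.2
          have : δ * n ≤ ε / 6 * n := by gcongr
          linarith
  exact (ENNReal.mul_le_mul_iff_right hc (by simp)).1 h5

section Two

variable {ν : Measure ℝ} [IsProbabilityMeasure ν] {m0 : ℕ} {mb b : ℝ}

lemma measurable_trunc (r : ℝ) (m0 : ℕ) : Measurable (trunc r m0) := by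
  unfold trunc
  refine Measurable.ite ?_ measurable_id measurable_const
  exact measurableSet_le (by fun_prop) measurable_const

lemma WW_eq (m0 : ℕ) (mb : ℝ) (y x : Fin n → ℝ) : WW m0 mb y x =
    if ∑ j, trunc n m0 (y j) ^ 2 * x j ^ 2 ≤ 40 * n then
      SS (fun t => trunc n m0 t - mb) x y ^ 2 else 0 := rfl

lemma measurable_WW (m0 : ℕ) (mb : ℝ) (x : Fin n → ℝ) :
    Measurable (fun y : Fin n → ℝ => WW m0 mb y x) := by
  have hf : Measurable (fun t => trunc n m0 t - mb) := (measurable_trunc _ _).sub_const _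
  simp_rw [WW_eq]
  refine Measurable.ite ?_ ((measurable_SS hf x).pow_const 2) measurable_const
  refine measurableSet_le ?_ measurable_const
  exact measurable_VV (measurable_trunc n m0) x

lemma row_WW (hn : 1 ≤ n) (hb : ∀ t, |trunc n m0 t - mb| ≤ b)
    (h0 : ∫ t, (trunc n m0 t - mb) ∂ν = 0) (h2 : ∫ t, (trunc n m0 t - mb) ^ 2 ∂ν ≤ 1)
    (hmb : mb ^ 2 * n ≤ 2 ^ m0) (hm0 : (2 : ℝ) ^ m0 ≤ 2 * n) (x : Fin n → ℝ)
    (hx : ∑ j, x j ^ 2 ≤ n) :
    ∫⁻ y, ENNReal.ofReal (exp (1 / (672 * n) * WW m0 mb y x))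
      ∂(Measure.infinitePi (fun _ : Fin n => ν)) ≤
      ENNReal.ofReal (exp (1 / (56 * n) * ∑ j, x j ^ 2)) := by
  have hn0 : (0 : ℝ) < n := by exact_mod_cast hn
  set f : ℝ → ℝ := fun t => trunc n m0 t - mb with hf
  have hfm : Measurable f := (measurable_trunc _ _).sub_const _
  set s := ∑ j, x j ^ 2 with hs
  have hs0 : 0 ≤ s := Finset.sum_nonneg fun _ _ => sq_nonneg _
  have hR : 8 * (84 * (n : ℝ)) = 672 * n := by ring
  have hkey := row_sq (ν := ν) hfm hb h0 h2 x (R := 84 * n) (by positivity) (by linarith)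
  rw [hR] at hkey
  have hpt : ∀ y : Fin n → ℝ, ENNReal.ofReal (exp (1 / (672 * n) * WW m0 mb y x)) ≤
      1 + {y | VV f x y ≤ 84 * n}.indicator
        (fun y => ENNReal.ofReal (exp (1 / (672 * n) * SS f x y ^ 2) - 1)) y := by
    intro y
    rw [WW_eq]
    split_ifs with h
    · have h3 : VV f x y ≤ 84 * n := by
        calc VV f x y ≤ ∑ j, (2 * (trunc n m0 (y j) ^ 2 * x j ^ 2) + 2 * mb ^ 2 * x j ^ 2) := by
              unfold VV
              refine Finset.sum_le_sum fun j _ => ?_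
              simp only [hf]
              have : (trunc n m0 (y j) - mb) ^ 2 ≤ 2 * trunc n m0 (y j) ^ 2 + 2 * mb ^ 2 := by
                nlinarith [sq_nonneg (trunc n m0 (y j) + mb)]
              nlinarith [sq_nonneg (x j)]
          _ = 2 * (∑ j, trunc n m0 (y j) ^ 2 * x j ^ 2) + 2 * mb ^ 2 * s := by
              rw [Finset.sum_add_distrib, ← Finset.mul_sum, ← Finset.mul_sum]
          _ ≤ 2 * (40 * n) + 2 * mb ^ 2 * n := by gcongr
          _ ≤ 84 * n := by linarith
      rw [Set.indicator_of_mem (show y ∈ {y | VV f x y ≤ 84 * n} from h3), ← ENNReal.ofReal_one,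
        ← ENNReal.ofReal_add (by norm_num)]
      · apply le_of_eq
        congr 1
        ring
      · have : (1 : ℝ) ≤ exp (1 / (672 * n) * SS f x y ^ 2) := one_le_exp (by positivity)
        linarith
    · simp
  calc _ ≤ ∫⁻ y, (1 + {y | VV f x y ≤ 84 * n}.indicator
        (fun y => ENNReal.ofReal (exp (1 / (672 * n) * SS f x y ^ 2) - 1)) y)
        ∂(Measure.infinitePi (fun _ : Fin n => ν)) := lintegral_mono hpt
    _ = 1 + ∫⁻ y, {y | VV f x y ≤ 84 * n}.indicator
        (fun y => ENNReal.ofReal (exp (1 / (672 * n) * SS f x y ^ 2) - 1)) y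
        ∂(Measure.infinitePi (fun _ : Fin n => ν)) := by
        rw [lintegral_add_left measurable_const]
        simp
    _ ≤ 1 + ENNReal.ofReal (12 * (1 / (672 * n)) * s) := by gcongr
    _ = ENNReal.ofReal (1 + 1 / (56 * n) * s) := by
        rw [ENNReal.ofReal_add (by norm_num) (by positivity), ENNReal.ofReal_one]
        congr 2
        field_simp
        ring
    _ ≤ _ := by
        apply ENNReal.ofReal_le_ofReal
        have := add_one_le_exp (1 / (56 * n) * s)
        linarith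

lemma matrix_WW (hn : 1 ≤ n) (hb : ∀ t, |trunc n m0 t - mb| ≤ b)
    (h0 : ∫ t, (trunc n m0 t - mb) ∂ν = 0) (h2 : ∫ t, (trunc n m0 t - mb) ^ 2 ∂ν ≤ 1)
    (hmb : mb ^ 2 * n ≤ 2 ^ m0) (hm0 : (2 : ℝ) ^ m0 ≤ 2 * n) (x : Fin n → ℝ)
    (hx : ∑ j, x j ^ 2 ≤ n) (u : ℝ) :
    muM n ν {a | u < ∑ i, WW m0 mb (a i) x} ≤
      ENNReal.ofReal (exp (-(1 / (672 * n) * u) + 1 / 56 * ∑ j, x j ^ 2)) := by
  have hn0 : (0 : ℝ) < n := by exact_mod_cast hn
  set θ := 1 / (672 * (n : ℝ)) with hθ
  have hθ0 : 0 < θ := by positivity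
  set s := ∑ j, x j ^ 2 with hs
  have hint : ∫⁻ a, ENNReal.ofReal (exp (θ * ∑ i, WW m0 mb (a i) x)) ∂(muM n ν) ≤
      ENNReal.ofReal (exp (1 / 56 * s)) := by
    have h1 : ∀ a : Fin n → Fin n → ℝ, ENNReal.ofReal (exp (θ * ∑ i, WW m0 mb (a i) x)) =
        ∏ i, ENNReal.ofReal (exp (θ * WW m0 mb (a i) x)) := by
      intro a
      rw [← ENNReal.ofReal_prod_of_nonneg (fun _ _ => (exp_pos _).le), ← exp_sum, Finset.mul_sum]
    simp_rw [h1]
    unfold muM
    rw [lintegral_prod_pi (Measure.infinitePi (fun _ : Fin n => ν))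
      (fun (_ : Fin n) y => ENNReal.ofReal (exp (θ * WW m0 mb y x)))
      (fun _ => by
        have := measurable_WW (n := n) m0 mb x
        fun_prop)]
    rw [Finset.prod_const, Finset.card_univ, Fintype.card_fin]
    calc _ ≤ (ENNReal.ofReal (exp (1 / (56 * n) * s))) ^ n := by
          gcongr
          exact row_WW hn hb h0 h2 hmb hm0 x hx
      _ = ENNReal.ofReal (exp (1 / 56 * s)) := by
          rw [← ENNReal.ofReal_pow (exp_pos _).le, ← exp_nat_mul]
          congr 2
          field_simp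
  have hmk := mul_meas_ge_le_lintegral₀ (μ := muM n ν)
    (f := fun a => ENNReal.ofReal (exp (θ * ∑ i, WW m0 mb (a i) x))) (by
      refine Measurable.aemeasurable ?_
      have : ∀ i, Measurable (fun a : Fin n → Fin n → ℝ => WW m0 mb (a i) x) := fun i =>
        (measurable_WW (n := n) m0 mb x).comp (measurable_pi_apply i)
      fun_prop) (ENNReal.ofReal (exp (θ * u)))
  have hset : {a : Fin n → Fin n → ℝ | u < ∑ i, WW m0 mb (a i) x} ⊆
      {a | ENNReal.ofReal (exp (θ * u)) ≤ ENNReal.ofReal (exp (θ * ∑ i, WW m0 mb (a i) x))} := by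
    intro a ha
    apply ENNReal.ofReal_le_ofReal
    apply exp_le_exp.2
    have : u < ∑ i, WW m0 mb (a i) x := ha
    gcongr
  have hc : ENNReal.ofReal (exp (θ * u)) ≠ 0 := by simp [exp_pos]
  have h5 : ENNReal.ofReal (exp (θ * u)) * muM n ν {a | u < ∑ i, WW m0 mb (a i) x} ≤
      ENNReal.ofReal (exp (θ * u)) * ENNReal.ofReal (exp (-(θ * u) + 1 / 56 * s)) := by
    calc _ ≤ ENNReal.ofReal (exp (θ * u)) * muM n ν
          {a | ENNReal.ofReal (exp (θ * u)) ≤ ENNReal.ofReal (exp (θ * ∑ i, WW m0 mb (a i) x))} := by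
          gcongr
      _ ≤ ENNReal.ofReal (exp (1 / 56 * s)) := hmk.trans hint
      _ = _ := by
          rw [← ENNReal.ofReal_mul (exp_pos _).le, ← exp_add]
          congr 2
          ring
  exact (ENNReal.mul_le_mul_iff_right hc (by simp)).1 h5

/-- The threshold at scale `l`. -/
noncomputable def ul (n l : ℕ) : ℝ := 4032 * n * (n / 2 ^ l) * (l + 1)

/-- Some sign vector with small support has a large image. -/
def Bad2 (n m0 M : ℕ) (mb : ℝ) : Set (Fin n → Fin n → ℝ) :=
  {a | ∃ l < M, ∃ J : Finset (Fin n), (J.card : ℝ) ≤ n / 2 ^ l ∧ ∃ x, SignVec J x ∧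
    ul n l < ∑ i, WW m0 mb (a i) x}

/-- All sign vectors. -/
noncomputable def allSigns (n : ℕ) : Finset (Fin n → ℝ) := Fintype.piFinset fun _ => {-1, 0, 1}

lemma sum_exp_signs (c : ℝ) :
    ∑ x ∈ allSigns n, exp (-(c * ∑ j, x j ^ 2)) = (1 + 2 * exp (-c)) ^ n := by
  have h1 : ∀ x : Fin n → ℝ, exp (-(c * ∑ j, x j ^ 2)) = ∏ j, exp (-(c * x j ^ 2)) := by
    intro x
    rw [← exp_sum, Finset.mul_sum, Finset.sum_neg_distrib]
  simp_rw [h1]
  unfold allSigns
  rw [← Finset.prod_univ_sum (fun _ : Fin n => ({-1, 0, 1} : Finset ℝ))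
    (fun _ v => exp (-(c * v ^ 2)))]
  rw [Finset.prod_const, Finset.card_univ, Fintype.card_fin]
  congr 1
  rw [Finset.sum_insert (by norm_num), Finset.sum_insert (by norm_num), Finset.sum_singleton]
  norm_num
  ring

lemma scale_bound (hn : 1 ≤ n) (hb : ∀ t, |trunc n m0 t - mb| ≤ b)
    (h0 : ∫ t, (trunc n m0 t - mb) ∂ν = 0) (h2 : ∫ t, (trunc n m0 t - mb) ^ 2 ∂ν ≤ 1)
    (hmb : mb ^ 2 * n ≤ 2 ^ m0) (hm0 : (2 : ℝ) ^ m0 ≤ 2 * n) (l : ℕ) :
    muM n ν {a | ∃ J : Finset (Fin n), (J.card : ℝ) ≤ n / 2 ^ l ∧ ∃ x, SignVec J x ∧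
      ul n l < ∑ i, WW m0 mb (a i) x} ≤
      ENNReal.ofReal (exp (-(3 * (n / 2 ^ l) * (l + 1)))) := by
  classical
  have hn0 : (0 : ℝ) < n := by exact_mod_cast hn
  set sl : ℝ := n / 2 ^ l with hsl
  have hsl0 : 0 < sl := by positivity
  have hsln : sl ≤ n := by
    rw [hsl]
    exact div_le_self hn0.le (one_le_pow₀ (by norm_num))
  set F : Finset (Fin n → ℝ) := (allSigns n).filter (fun x => ∑ j, x j ^ 2 ≤ sl) with hF
  have hsub : {a : Fin n → Fin n → ℝ | ∃ J : Finset (Fin n), (J.card : ℝ) ≤ n / 2 ^ l ∧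
      ∃ x, SignVec J x ∧ ul n l < ∑ i, WW m0 mb (a i) x} ⊆
      ⋃ x ∈ F, {a | ul n l < ∑ i, WW m0 mb (a i) x} := by
    rintro a ⟨J, hJ, x, hx, hax⟩
    simp only [Set.mem_iUnion]
    refine ⟨x, ?_, hax⟩
    rw [hF, Finset.mem_filter, allSigns, Fintype.mem_piFinset]
    refine ⟨fun j => ?_, ?_⟩
    · by_cases hj : j ∈ J
      · rcases hx.1 j hj with h | h <;> simp [h]
      · simp [hx.2 j hj]
    · have : ∑ j, x j ^ 2 = J.card := by
        rw [← Finset.sum_subset (Finset.subset_univ J) (fun j _ hj => by rw [hx.2 j hj]; simp)]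
        rw [Finset.sum_congr rfl (g := fun _ => (1 : ℝ))]
        · simp
        · intro j hj
          rcases hx.1 j hj with h | h <;> simp [h]
      rw [this]
      exact hJ
  have hul : 1 / (672 * n) * ul n l = 6 * sl * (l + 1) := by
    rw [ul, ← hsl]
    field_simp
    ring
  calc _ ≤ muM n ν (⋃ x ∈ F, {a | ul n l < ∑ i, WW m0 mb (a i) x}) := measure_mono hsub
    _ ≤ ∑ x ∈ F, muM n ν {a | ul n l < ∑ i, WW m0 mb (a i) x} := measure_biUnion_finset_le _ _
    _ ≤ ∑ x ∈ F, ENNReal.ofReal (exp (-(6 * sl * (l + 1)) + 1 / 56 * sl) *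
          exp (l * log 2 * sl) * exp (-(l * log 2 * ∑ j, x j ^ 2))) := by
        refine Finset.sum_le_sum fun x hx => ?_
        have hxs : ∑ j, x j ^ 2 ≤ sl := (Finset.mem_filter.1 hx).2
        refine (matrix_WW hn hb h0 h2 hmb hm0 x (hxs.trans hsln) (ul n l)).trans ?_
        apply ENNReal.ofReal_le_ofReal
        rw [hul, ← exp_add, ← exp_add]
        apply exp_le_exp.2
        have h3 : 0 ≤ l * log 2 := by positivity
        have h4 : l * log 2 * ∑ j, x j ^ 2 ≤ l * log 2 * sl := by gcongr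
        linarith
    _ ≤ ∑ x ∈ allSigns n, ENNReal.ofReal (exp (-(6 * sl * (l + 1)) + 1 / 56 * sl) *
          exp (l * log 2 * sl) * exp (-(l * log 2 * ∑ j, x j ^ 2))) :=
        Finset.sum_le_sum_of_subset (Finset.filter_subset _ _)
    _ = ENNReal.ofReal (exp (-(6 * sl * (l + 1)) + 1 / 56 * sl) *
          exp (l * log 2 * sl) * (1 + 2 * exp (-(l * log 2))) ^ n) := by
        rw [← ENNReal.ofReal_sum_of_nonneg (fun _ _ => by positivity), ← Finset.mul_sum,
          sum_exp_signs]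
    _ ≤ ENNReal.ofReal (exp (-(3 * sl * (l + 1)))) := by
        apply ENNReal.ofReal_le_ofReal
        have h3 : exp (-(l * log 2)) = 1 / 2 ^ l := by
          rw [exp_neg, exp_nat_mul, exp_log (by norm_num), one_div]
        have h4 : (1 + 2 * exp (-(l * log 2))) ^ n ≤ exp (2 * sl) := by
          rw [h3]
          calc (1 + 2 * (1 / 2 ^ l)) ^ n ≤ exp (2 * (1 / 2 ^ l)) ^ n := by
                gcongr
                have := add_one_le_exp (2 * (1 / 2 ^ l : ℝ))
                linarith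
            _ = exp (2 * sl) := by
                rw [← exp_nat_mul, hsl]
                congr 1
                ring
        calc _ ≤ exp (-(6 * sl * (l + 1)) + 1 / 56 * sl) * exp (l * log 2 * sl) * exp (2 * sl) := by
              gcongr
          _ = exp (-(6 * sl * (l + 1)) + 1 / 56 * sl + l * log 2 * sl + 2 * sl) := by
              rw [← exp_add, ← exp_add]
          _ ≤ _ := by
              apply exp_le_exp.2
              have h5 : log 2 ≤ 1 := by
                have := log_two_lt_d9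
                linarith
              have h6 : (l : ℝ) * log 2 * sl ≤ l * 1 * sl := by gcongr
              have h7 : (0 : ℝ) ≤ l * sl := by positivity
              nlinarith

theorem measure_Bad2 (hn : 1 ≤ n) (hb : ∀ t, |trunc n m0 t - mb| ≤ b)
    (h0 : ∫ t, (trunc n m0 t - mb) ∂ν = 0) (h2 : ∫ t, (trunc n m0 t - mb) ^ 2 ∂ν ≤ 1)
    (hmb : mb ^ 2 * n ≤ 2 ^ m0) (hm0 : (2 : ℝ) ^ m0 ≤ 2 * n) {ε : ℝ} (hεn : 1 ≤ ε * n)
    {M : ℕ} (hM : ∀ l < M, ε * n / 2 ≤ n / 2 ^ l) :
    muM n ν (Bad2 n m0 M mb) ≤ ENNReal.ofReal (2 * exp (-(ε * n) / 12)) := by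
  set r := exp (-(3 / 2 * (ε * n))) with hr
  have hr1 : r ≤ 1 / 2 := by
    calc r ≤ exp (-1) := by
          apply exp_le_exp.2
          linarith
      _ ≤ 1 / 2 := by
          rw [exp_neg, one_div]
          apply inv_anti₀ (by norm_num)
          have := add_one_le_exp (1 : ℝ)
          linarith
  have hsub : Bad2 n m0 M mb ⊆ ⋃ l ∈ Finset.range M,
      {a | ∃ J : Finset (Fin n), (J.card : ℝ) ≤ n / 2 ^ l ∧ ∃ x, SignVec J x ∧
        ul n l < ∑ i, WW m0 mb (a i) x} := by
    rintro a ⟨l, hl, ha⟩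
    simp only [Set.mem_iUnion]
    exact ⟨l, Finset.mem_range.2 hl, ha⟩
  calc _ ≤ ∑ l ∈ Finset.range M, muM n ν {a | ∃ J : Finset (Fin n), (J.card : ℝ) ≤ n / 2 ^ l ∧
        ∃ x, SignVec J x ∧ ul n l < ∑ i, WW m0 mb (a i) x} :=
        (measure_mono hsub).trans (measure_biUnion_finset_le _ _)
    _ ≤ ∑ l ∈ Finset.range M, ENNReal.ofReal (r * (1 / 2) ^ l) := by
        refine Finset.sum_le_sum fun l hl => ?_
        refine (scale_bound hn hb h0 h2 hmb hm0 l).trans ?_
        apply ENNReal.ofReal_le_ofReal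
        calc exp (-(3 * (n / 2 ^ l) * (l + 1))) ≤ exp (-(3 / 2 * (ε * n)) * (l + 1)) := by
              apply exp_le_exp.2
              have h3 := hM l (Finset.mem_range.1 hl)
              have h4 : (0 : ℝ) ≤ l + 1 := by positivity
              nlinarith
          _ = r * r ^ l := by
              rw [hr, ← exp_nat_mul, ← exp_add]
              congr 1
              ring
          _ ≤ r * (1 / 2) ^ l := by
              have : 0 < r := exp_pos _
              gcongr
    _ = ENNReal.ofReal (r * ∑ l ∈ Finset.range M, (1 / 2) ^ l) := by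
        have : 0 < r := exp_pos _
        rw [← ENNReal.ofReal_sum_of_nonneg (fun _ _ => by positivity), Finset.mul_sum]
    _ ≤ ENNReal.ofReal (2 * exp (-(ε * n) / 12)) := by
        apply ENNReal.ofReal_le_ofReal
        have h3 := sum_geometric_two_le M
        have h4 : 0 < r := exp_pos _
        have h5 : r ≤ exp (-(ε * n) / 12) := by
          apply exp_le_exp.2
          linarith
        calc r * ∑ l ∈ Finset.range M, (1 / 2) ^ l ≤ r * 2 := by gcongr
          _ ≤ exp (-(ε * n) / 12) * 2 := by gcongr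
          _ = _ := by ring

end Two

end Pool.Agent.H97.Reg
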