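import Pool.Agent.H97.Reg.Signs

set_option autoImplicit false

/-! Little Grothendieck inequality and selection of columns. -/

open Finset

namespace Pool.Agent.H97.Reg

variable {ι κ : Type*} [Fintype ι] [Fintype κ]

/-- Squared Euclidean norm of `B x`. -/
def q (B : ι → κ → ℝ) (x : κ → ℝ) : ℝ := ∑ i, (∑ j, B i j * x j) ^ 2

lemma q_nonneg (B : ι → κ → ℝ) (x : κ → ℝ) : 0 ≤ q B x :=
  Finset.sum_nonneg fun _ _ => sq_nonneg _

lemma q_smul (B : ι → κ → ℝ) (c : ℝ) (x : κ → ℝ) : q B (fun j => c * x j) = c ^ 2 * q B x := by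
  unfold q
  rw [Finset.mul_sum]
  refine Finset.sum_congr rfl fun i _ => ?_
  rw [← mul_pow, Finset.mul_sum]
  congr 1
  exact Finset.sum_congr rfl fun j _ => by ring

lemma q_add_le (B : ι → κ → ℝ) (x y : κ → ℝ) :
    q B (fun j => x j + y j) ≤ 2 * q B x + 2 * q B y := by
  unfold q
  rw [Finset.mul_sum, Finset.mul_sum, ← Finset.sum_add_distrib]
  refine Finset.sum_le_sum fun i _ => ?_
  have : ∑ j, B i j * (x j + y j) = (∑ j, B i j * x j) + ∑ j, B i j * y j := by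
    rw [← Finset.sum_add_distrib]
    exact Finset.sum_congr rfl fun j _ => by ring
  rw [this]
  nlinarith [sq_nonneg ((∑ j, B i j * x j) - ∑ j, B i j * y j)]

lemma q_le (B : ι → κ → ℝ) (x : κ → ℝ) : q B x ≤ (∑ i, ∑ j, B i j ^ 2) * ∑ j, x j ^ 2 := by
  unfold q
  rw [Finset.sum_mul]
  exact Finset.sum_le_sum fun i _ => Finset.sum_mul_sq_le_sq_mul_sq _ _ _

/-- Disjointly supported (or arbitrary) vectors: sum of two bounds. -/
lemma q_combine (B : ι → κ → ℝ) (x y : κ → ℝ) {a b X Y : ℝ} (ha : 0 ≤ a) (hb : 0 ≤ b)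
    (hX : 0 ≤ X) (hY : 0 ≤ Y) (h1 : q B x ≤ a * X) (h2 : q B y ≤ b * Y) :
    q B (fun j => x j + y j) ≤ (a + b) * (X + Y) := by
  set u : ι → ℝ := fun i => ∑ j, B i j * x j with hu
  set v : ι → ℝ := fun i => ∑ j, B i j * y j with hv
  have h3 : q B (fun j => x j + y j) = ∑ i, u i ^ 2 + 2 * ∑ i, u i * v i + ∑ i, v i ^ 2 := by
    unfold q
    rw [Finset.mul_sum, ← Finset.sum_add_distrib, ← Finset.sum_add_distrib]
    refine Finset.sum_congr rfl fun i _ => ?_
    have : ∑ j, B i j * (x j + y j) = u i + v i := by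
      rw [hu, hv]
      simp only
      rw [← Finset.sum_add_distrib]
      exact Finset.sum_congr rfl fun j _ => by ring
    rw [this]; ring
  have h4 : (∑ i, u i * v i) ^ 2 ≤ (∑ i, u i ^ 2) * ∑ i, v i ^ 2 :=
    Finset.sum_mul_sq_le_sq_mul_sq _ _ _
  have h5 : ∑ i, u i ^ 2 ≤ a * X := h1
  have h6 : ∑ i, v i ^ 2 ≤ b * Y := h2
  have h7 : (∑ i, u i * v i) ^ 2 ≤ ((a * Y + b * X) / 2) ^ 2 := by
    calc (∑ i, u i * v i) ^ 2 ≤ (∑ i, u i ^ 2) * ∑ i, v i ^ 2 := h4
      _ ≤ (a * X) * (b * Y) := by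
          apply mul_le_mul h5 h6 (Finset.sum_nonneg fun _ _ => sq_nonneg _) (by positivity)
      _ ≤ ((a * Y + b * X) / 2) ^ 2 := by nlinarith [sq_nonneg (a * Y - b * X)]
  have h8 := abs_le_of_sq_le_sq' h7 (by positivity)
  rw [h3]
  nlinarith [h8.2]

/-- `c` bounds `∑ ‖B x_k‖²` for all families with `∑ x_k j ^ 2 ≤ 1` for all `j`. -/
def Fam (B : ι → κ → ℝ) (c : ℝ) : Prop :=
  ∀ (N : ℕ) (x : Fin N → κ → ℝ), (∀ j, ∑ k, x k j ^ 2 ≤ 1) → ∑ k, q B (x k) ≤ c

lemma Fam.fintype {B : ι → κ → ℝ} {c : ℝ} (h : Fam B c) {K : Type} [Fintype K] (x : K → κ → ℝ)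
    (hx : ∀ j, ∑ k, x k j ^ 2 ≤ 1) : ∑ k, q B (x k) ≤ c := by
  have e := (Fintype.equivFin K).symm
  have h1 := h (Fintype.card K) (fun k => x (e k)) (fun j => by
    rw [e.sum_comp (fun k => x k j ^ 2)]; exact hx j)
  rwa [e.sum_comp (fun k => q B (x k))] at h1

lemma Fam.scale {B : ι → κ → ℝ} {c : ℝ} (h : Fam B c) {K : Type} [Fintype K] (x : K → κ → ℝ)
    {M : ℝ} (hM : 0 < M) (hx : ∀ j, ∑ k, x k j ^ 2 ≤ M) : ∑ k, q B (x k) ≤ M * c := by
  have hs : (√M)⁻¹ ^ 2 = M⁻¹ := by rw [inv_pow, Real.sq_sqrt hM.le]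
  have h1 := h.fintype (fun k j => (√M)⁻¹ * x k j) (fun j => by
    have : ∑ k, ((√M)⁻¹ * x k j) ^ 2 = M⁻¹ * ∑ k, x k j ^ 2 := by
      rw [Finset.mul_sum]
      exact Finset.sum_congr rfl fun k _ => by rw [mul_pow, hs]
    rw [this, inv_mul_le_iff₀ hM, mul_one]
    exact hx j)
  have h2 : ∑ k, q B (fun j => (√M)⁻¹ * x k j) = M⁻¹ * ∑ k, q B (x k) := by
    rw [Finset.mul_sum]
    exact Finset.sum_congr rfl fun k _ => by rw [q_smul, hs]
  rw [h2, inv_mul_le_iff₀ hM] at h1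
  exact h1

lemma sum_q_rad (B : ι → κ → ℝ) {N : ℕ} (x : Fin N → κ → ℝ) :
    ∑ σ : Fin N → Bool, q B (fun j => rad σ (fun k => x k j)) = 2 ^ N * ∑ k, q B (x k) := by
  have h1 : ∀ σ : Fin N → Bool, q B (fun j => rad σ (fun k => x k j)) =
      ∑ i, rad σ (fun k => ∑ j, B i j * x k j) ^ 2 := by
    intro σ
    unfold q rad
    refine Finset.sum_congr rfl fun i _ => ?_
    congr 1
    simp_rw [Finset.mul_sum]
    rw [Finset.sum_comm]
    refine Finset.sum_congr rfl fun k _ => Finset.sum_congr rfl fun j _ => by ring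
  simp_rw [h1]
  rw [Finset.sum_comm]
  simp_rw [sum_rad_sq]
  rw [← Finset.mul_sum, Finset.sum_comm]
  rfl

lemma Fam.half {B : ι → κ → ℝ} {b c : ℝ} (hb : ∀ x : κ → ℝ, (∀ j, |x j| ≤ 1) → q B x ≤ b)
    (h : Fam B c) : Fam B (24 * b + c / 2) := by
  intro N x hx
  set Y : (Fin N → Bool) → κ → ℝ := fun σ j => rad σ (fun k => x k j) with hY
  have ht : (0 : ℝ) < √12 := by positivity
  have ht2 : (√12 : ℝ) ^ 2 = 12 := Real.sq_sqrt (by norm_num)
  set U : (Fin N → Bool) → κ → ℝ := fun σ j => if |Y σ j| ≤ √12 then Y σ j else 0 with hU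
  set V : (Fin N → Bool) → κ → ℝ := fun σ j => if |Y σ j| ≤ √12 then 0 else Y σ j with hV
  have hUV : ∀ σ, Y σ = fun j => U σ j + V σ j := by
    intro σ; funext j
    simp only [hU, hV]
    split_ifs <;> simp
  have h1 : ∀ σ, q B (Y σ) ≤ 2 * (12 * b) + 2 * q B (V σ) := by
    intro σ
    have h2 : q B (U σ) ≤ 12 * b := by
      have h3 : U σ = fun j => √12 * ((√12)⁻¹ * U σ j) := by
        funext j
        rw [← mul_assoc, mul_inv_cancel₀ ht.ne', one_mul]
      have h4 := hb (fun j => (√12)⁻¹ * U σ j) (fun j => by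
        rw [abs_mul, abs_inv, abs_of_pos ht, inv_mul_le_iff₀ ht, mul_one]
        simp only [hU]
        split_ifs with h5
        · exact h5
        · simp)
      rw [h3, q_smul, ht2]
      linarith
    calc q B (Y σ) = q B (fun j => U σ j + V σ j) := by rw [← hUV σ]
      _ ≤ 2 * q B (U σ) + 2 * q B (V σ) := q_add_le _ _ _
      _ ≤ _ := by linarith
  have hcard : ∑ _σ : Fin N → Bool, (1 : ℝ) = 2 ^ N := by simp
  have hp : (0 : ℝ) < 2 ^ N := by positivity
  have h2 : ∑ σ, q B (V σ) ≤ (2 ^ N / 4) * c := by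
    refine h.scale V (by positivity) fun j => ?_
    have h3 : ∀ σ, V σ j ^ 2 ≤ Y σ j ^ 4 / 12 := by
      intro σ
      simp only [hV]
      split_ifs with h4
      · simp only [ne_eq, OfNat.ofNat_ne_zero, not_false_eq_true, zero_pow]
        positivity
      · push Not at h4
        have h5 : 12 ≤ Y σ j ^ 2 := by
          rw [← ht2, ← sq_abs (Y σ j)]
          gcongr
        rw [le_div_iff₀ (by norm_num)]
        nlinarith [sq_nonneg (Y σ j)]
    calc ∑ σ, V σ j ^ 2 ≤ ∑ σ, Y σ j ^ 4 / 12 := Finset.sum_le_sum fun σ _ => h3 σ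
      _ = (∑ σ, Y σ j ^ 4) / 12 := by rw [Finset.sum_div]
      _ ≤ (3 * 2 ^ N * (∑ k, x k j ^ 2) ^ 2) / 12 := by
          gcongr
          exact sum_rad_four _
      _ ≤ (3 * 2 ^ N * 1 ^ 2) / 12 := by
          gcongr
          exact hx j
      _ = 2 ^ N / 4 := by ring
  have h3 : 2 ^ N * ∑ k, q B (x k) ≤ 2 ^ N * (24 * b + c / 2) := by
    rw [← sum_q_rad]
    calc ∑ σ, q B (Y σ) ≤ ∑ σ, (2 * (12 * b) + 2 * q B (V σ)) :=
          Finset.sum_le_sum fun σ _ => h1 σ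
      _ = 2 ^ N * (24 * b) + 2 * ∑ σ, q B (V σ) := by
          rw [Finset.sum_add_distrib, ← Finset.mul_sum (f := fun σ => q B (V σ)),
            Finset.sum_const, Finset.card_univ]
          simp
          ring
      _ ≤ 2 ^ N * (24 * b) + 2 * ((2 ^ N / 4) * c) := by gcongr
      _ = 2 ^ N * (24 * b + c / 2) := by ring
  exact le_of_mul_le_mul_left h3 hp

/-- **Little Grothendieck inequality.** -/
theorem groth {B : ι → κ → ℝ} {b : ℝ} (hb : ∀ x : κ → ℝ, (∀ j, |x j| ≤ 1) → q B x ≤ b) :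
    Fam B (48 * b) := by
  set S : Set ℝ := {c | 0 ≤ c ∧ Fam B c} with hS
  have hne : S.Nonempty := by
    refine ⟨(∑ i, ∑ j, B i j ^ 2) * (Fintype.card κ), ?_, ?_⟩
    · have : 0 ≤ ∑ i, ∑ j, B i j ^ 2 :=
        Finset.sum_nonneg fun _ _ => Finset.sum_nonneg fun _ _ => sq_nonneg _
      positivity
    · intro N x hx
      have h0 : 0 ≤ ∑ i, ∑ j, B i j ^ 2 :=
        Finset.sum_nonneg fun _ _ => Finset.sum_nonneg fun _ _ => sq_nonneg _
      calc ∑ k, q B (x k) ≤ ∑ k, (∑ i, ∑ j, B i j ^ 2) * ∑ j, x k j ^ 2 :=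
            Finset.sum_le_sum fun k _ => q_le _ _
        _ = (∑ i, ∑ j, B i j ^ 2) * ∑ j, ∑ k, x k j ^ 2 := by
            rw [← Finset.mul_sum]
            congr 1
            exact Finset.sum_comm
        _ ≤ (∑ i, ∑ j, B i j ^ 2) * ∑ _j : κ, (1 : ℝ) := by
            gcongr with j _
            exact hx j
        _ = _ := by simp
  have hbdd : BddBelow S := ⟨0, fun c hc => hc.1⟩
  set c₀ := sInf S with hc₀
  have h0 : 0 ≤ c₀ := le_csInf hne fun c hc => hc.1
  have h1 : Fam B c₀ := fun N x hx => le_csInf hne fun c hc => hc.2 N x hx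
  have hb0 : 0 ≤ b := (q_nonneg B (fun _ => 0)).trans (hb _ (by simp))
  have h2 : c₀ ≤ 24 * b + c₀ / 2 := csInf_le hbdd ⟨by positivity, h1.half hb⟩
  intro N x hx
  have h3 := h1 N x hx
  linarith

open Classical in
/-- Greedy selection: a few columns can be removed so that the norm becomes small. -/
theorem select {B : ι → κ → ℝ} {c : ℝ} (h : Fam B c) {T : ℝ} (hT : 0 ≤ T) :
    ∃ Sat : Finset κ, (Sat.card : ℝ) * T ≤ 2 * c ∧
      ∀ x : κ → ℝ, (∀ j ∈ Sat, x j = 0) → q B x ≤ T * ∑ j, x j ^ 2 := by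
  set Pr : ℕ → Prop := fun N => ∃ x : Fin N → κ → ℝ, (∀ k, ∑ j, x k j ^ 2 = 1) ∧
    (∀ k, T < q B (x k)) ∧ ∀ j, ∑ k, x k j ^ 2 ≤ 2 with hPr
  have h0 : Pr 0 := ⟨fun _ _ => 0, fun k => k.elim0, fun k => k.elim0, fun j => by simp⟩
  have hbound : ∀ N, Pr N → N ≤ 2 * Fintype.card κ := by
    rintro N ⟨x, h1, _, h3⟩
    have h4 : (N : ℝ) ≤ 2 * Fintype.card κ := by
      calc (N : ℝ) = ∑ k : Fin N, ∑ j, x k j ^ 2 := by simp [h1]
        _ = ∑ j, ∑ k : Fin N, x k j ^ 2 := Finset.sum_comm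
        _ ≤ ∑ _j : κ, (2 : ℝ) := Finset.sum_le_sum fun j _ => h3 j
        _ = 2 * Fintype.card κ := by simp [mul_comm]
    exact_mod_cast h4
  set N := Nat.findGreatest Pr (2 * Fintype.card κ) with hN
  have hPN : Pr N := Nat.findGreatest_spec (Nat.zero_le _) h0
  have hmax : ¬ Pr (N + 1) := by
    intro hc
    have h1 := hbound _ hc
    exact Nat.findGreatest_is_greatest (Nat.lt_succ_self N) h1 hc
  obtain ⟨x, h1, h2, h3⟩ := hPN
  refine ⟨univ.filter (fun j => 1 < ∑ k, x k j ^ 2), ?_, ?_⟩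
  · have h4 : ((univ.filter (fun j => 1 < ∑ k, x k j ^ 2)).card : ℝ) ≤ N := by
      calc ((univ.filter (fun j => 1 < ∑ k, x k j ^ 2)).card : ℝ)
          = ∑ _j ∈ univ.filter (fun j => 1 < ∑ k, x k j ^ 2), (1 : ℝ) := by simp
        _ ≤ ∑ j ∈ univ.filter (fun j => 1 < ∑ k, x k j ^ 2), ∑ k, x k j ^ 2 :=
            Finset.sum_le_sum fun j hj => (Finset.mem_filter.1 hj).2.le
        _ ≤ ∑ j, ∑ k, x k j ^ 2 :=
            Finset.sum_le_sum_of_subset_of_nonneg (Finset.filter_subset _ _)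
              fun _ _ _ => Finset.sum_nonneg fun _ _ => sq_nonneg _
        _ = ∑ k, ∑ j, x k j ^ 2 := Finset.sum_comm
        _ = N := by simp [h1]
    calc ((univ.filter (fun j => 1 < ∑ k, x k j ^ 2)).card : ℝ) * T ≤ N * T := by gcongr
      _ = ∑ _k : Fin N, T := by simp
      _ ≤ ∑ k, q B (x k) := Finset.sum_le_sum fun k _ => (h2 k).le
      _ ≤ 2 * c := h.scale x (by norm_num) h3
  · intro y hy
    by_contra hcon
    push Not at hcon
    apply hmax
    set s := ∑ j, y j ^ 2 with hs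
    have hs0 : 0 < s := by
      rcases (Finset.sum_nonneg fun j _ => sq_nonneg (y j) : 0 ≤ ∑ j, y j ^ 2).lt_or_eq with h5 | h5
      · exact h5
      · exfalso
        have h6 : ∀ j, y j = 0 := by
          intro j
          have := (Finset.sum_eq_zero_iff_of_nonneg (fun j _ => sq_nonneg (y j))).1 h5.symm j
            (Finset.mem_univ j)
          exact pow_eq_zero_iff (two_ne_zero) |>.1 this
        have h7 : q B y = 0 := by simp [q, h6]
        rw [h7, hs, ← h5, mul_zero] at hcon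
        exact lt_irrefl _ hcon
    have hss : (√s)⁻¹ ^ 2 = s⁻¹ := by rw [inv_pow, Real.sq_sqrt hs0.le]
    set z : κ → ℝ := fun j => (√s)⁻¹ * y j with hz
    have hz2 : ∀ j, z j ^ 2 = s⁻¹ * y j ^ 2 := fun j => by rw [hz]; simp only; rw [mul_pow, hss]
    have hz1 : ∑ j, z j ^ 2 = 1 := by
      simp_rw [hz2]
      rw [← Finset.mul_sum, ← hs, inv_mul_cancel₀ hs0.ne']
    refine ⟨Fin.cons z x, ?_, ?_, ?_⟩
    · intro k
      refine Fin.cases ?_ (fun k => ?_) k
      · simpa using hz1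
      · simpa using h1 k
    · intro k
      refine Fin.cases ?_ (fun k => ?_) k
      · simp only [Fin.cons_zero]
        rw [hz, q_smul, hss, lt_inv_mul_iff₀ hs0, mul_comm]
        exact hcon
      · simpa using h2 k
    · intro j
      rw [Fin.sum_univ_succ]
      simp only [Fin.cons_zero, Fin.cons_succ]
      by_cases hj : 1 < ∑ k, x k j ^ 2
      · have : z j = 0 := by
          rw [hz]; simp only
          rw [hy j (by simp [hj]), mul_zero]
        rw [this]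
        simpa using h3 j
      · push Not at hj
        have : z j ^ 2 ≤ 1 := by
          rw [← hz1]
          exact Finset.single_le_sum (f := fun j => z j ^ 2) (fun _ _ => sq_nonneg _)
            (Finset.mem_univ j)
        linarith

end Pool.Agent.H97.Reg
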