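import Pool.Agent.H97.Reg.Rows

set_option autoImplicit false

/-! Exponential moments. -/

open Real MeasureTheory ProbabilityTheory

namespace Pool.Agent.H97.Reg

lemma hasDeriv_g (y : ℝ) : HasDerivAt (fun y : ℝ => (1 + y + y ^ 2 / 3) * exp (-y + y ^ 2 / 6))
    (y ^ 3 / 9 * exp (-y + y ^ 2 / 6)) y := by
  have h1 : HasDerivAt (fun y : ℝ => 1 + y + y ^ 2 / 3) (1 + 2 * y / 3) y := by
    refine (((hasDerivAt_id y).const_add 1).add ((hasDerivAt_pow 2 y).div_const 3)).congr_deriv ?_
    norm_num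
  have h2 : HasDerivAt (fun y : ℝ => -y + y ^ 2 / 6) (-1 + 2 * y / 6) y := by
    refine (((hasDerivAt_id y).neg).add ((hasDerivAt_pow 2 y).div_const 6)).congr_deriv ?_
    norm_num
  have h3 := h1.mul h2.exp
  have h4 : (1 + 2 * y / 3) * exp (-y + y ^ 2 / 6) +
      (1 + y + y ^ 2 / 3) * (exp (-y + y ^ 2 / 6) * (-1 + 2 * y / 6)) =
      y ^ 3 / 9 * exp (-y + y ^ 2 / 6) := by ring
  rw [h4] at h3
  exact h3

lemma exp_ineq (y : ℝ) : exp (y - y ^ 2 / 6) ≤ 1 + y + y ^ 2 / 3 := by
  set g : ℝ → ℝ := fun y => (1 + y + y ^ 2 / 3) * exp (-y + y ^ 2 / 6) with hg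
  have hd : ∀ y, HasDerivAt g (y ^ 3 / 9 * exp (-y + y ^ 2 / 6)) y := hasDeriv_g
  have hdiff : Differentiable ℝ g := fun y => (hd y).differentiableAt
  have h1 : 1 ≤ g y := by
    have hg0 : g 0 = 1 := by simp [hg]
    rcases le_total 0 y with hy | hy
    · have hm : MonotoneOn g (Set.Ici 0) := by
        refine monotoneOn_of_deriv_nonneg (convex_Ici 0) hdiff.continuous.continuousOn
          hdiff.differentiableOn fun x hx => ?_
        rw [(hd x).deriv]
        rw [interior_Ici] at hx
        have : 0 < x := hx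
        positivity
      rw [← hg0]
      exact hm (by simp) hy hy
    · have hm : AntitoneOn g (Set.Iic 0) := by
        refine antitoneOn_of_deriv_nonpos (convex_Iic 0) hdiff.continuous.continuousOn
          hdiff.differentiableOn fun x hx => ?_
        rw [(hd x).deriv]
        rw [interior_Iic] at hx
        have hx' : x < 0 := hx
        have h2 : x ^ 3 ≤ 0 := by
          have := mul_nonneg (mul_nonneg (neg_nonneg.2 hx'.le) (neg_nonneg.2 hx'.le)) (neg_nonneg.2 hx'.le)
          nlinarith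
        exact mul_nonpos_of_nonpos_of_nonneg (by linarith) (exp_pos _).le
      rw [← hg0]
      exact hm hy (by simp) hy
  have h2 : exp (y - y ^ 2 / 6) * g y = 1 + y + y ^ 2 / 3 := by
    simp only [hg]
    rw [mul_comm, mul_assoc, ← exp_add]
    have : -y + y ^ 2 / 6 + (y - y ^ 2 / 6) = 0 := by ring
    rw [this, exp_zero, mul_one]
  rw [← h2]
  nlinarith [exp_pos (y - y ^ 2 / 6)]

lemma gauss_cosh (u : ℝ) : ∫⁻ g, ENNReal.ofReal (cosh (u * g)) ∂(gaussianReal 0 1)
    = ENNReal.ofReal (exp (u ^ 2 / 2)) := by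
  have h1 : ∀ t : ℝ, ∫ g, exp (t * g) ∂(gaussianReal 0 1) = exp (t ^ 2 / 2) := by
    intro t
    have := mgf_gaussianReal (X := id) (p := gaussianReal 0 1) (μ := 0) (v := 1) (by simp) t
    rw [mgf] at this
    simpa using this
  have hi : ∀ t : ℝ, Integrable (fun g => exp (t * g)) (gaussianReal 0 1) := by
    intro t
    exact integrable_exp_mul_gaussianReal t
  rw [← ofReal_integral_eq_lintegral_ofReal]
  · congr 1
    simp_rw [cosh_eq]
    have h2 : ∀ g : ℝ, -(u * g) = (-u) * g := fun g => by ring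
    simp_rw [h2]
    rw [integral_div, integral_add (hi u) (hi (-u)), h1, h1]
    ring_nf
  · simp_rw [cosh_eq]
    have h2 : ∀ g : ℝ, -(u * g) = (-u) * g := fun g => by ring
    simp_rw [h2]
    exact ((hi u).add (hi (-u))).div_const 2
  · exact Filter.Eventually.of_forall fun g => (cosh_pos _).le

lemma gauss_quarter : ∫⁻ g, ENNReal.ofReal (exp (g ^ 2 / 4)) ∂(gaussianReal 0 1)
    ≤ ENNReal.ofReal (3 / 2) := by
  rw [gaussianReal_of_var_ne_zero 0 (by simp), lintegral_withDensity_eq_lintegral_mul _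
    (measurable_gaussianPDF 0 1) (by fun_prop)]
  have h1 : ∀ x : ℝ, (gaussianPDF 0 1 * fun g => ENNReal.ofReal (exp (g ^ 2 / 4))) x =
      ENNReal.ofReal ((√(2 * π))⁻¹ * exp (-(1 / 4) * x ^ 2)) := by
    intro x
    simp only [Pi.mul_apply, gaussianPDF, gaussianPDFReal]
    rw [← ENNReal.ofReal_mul (by positivity)]
    congr 1
    simp only [NNReal.coe_one, mul_one, sub_zero]
    rw [mul_assoc, ← exp_add]
    congr 2
    ring
  simp_rw [h1]
  rw [← ofReal_integral_eq_lintegral_ofReal]
  · apply ENNReal.ofReal_le_ofReal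
    rw [integral_const_mul, integral_gaussian]
    have h2 : (√(2 * π))⁻¹ * √(π / (1 / 4)) = √2 := by
      rw [← sqrt_inv, ← sqrt_mul (by positivity)]
      congr 1
      field_simp
      norm_num
    rw [h2]
    rw [sqrt_le_left (by norm_num)]
    norm_num
  · exact (integrable_exp_neg_mul_sq (by norm_num)).const_mul _
  · exact Filter.Eventually.of_forall fun g => by positivity

lemma lintegral_prod_pi {κ X : Type*} [Fintype κ] [MeasurableSpace X] (ν : Measure X)
    [IsProbabilityMeasure ν] (f : κ → X → ENNReal) (hf : ∀ j, Measurable (f j)) :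
    ∫⁻ y, ∏ j, f j (y j) ∂(Measure.infinitePi (fun _ : κ => ν)) = ∏ j, ∫⁻ t, f j t ∂ν := by
  have hind : iIndepFun (fun (j : κ) (y : κ → X) => f j (y j))
      (Measure.infinitePi (fun _ : κ => ν)) := iIndepFun_infinitePi hf
  rw [lintegral_prod_eq_prod_lintegral_of_indepFun Finset.univ
    (fun (j : κ) (y : κ → X) => f j (y j)) hind (fun j => (hf j).comp (measurable_pi_apply j))]
  refine Finset.prod_congr rfl fun j _ => ?_
  exact (measurePreserving_eval_infinitePi (fun _ : κ => ν) j).lintegral_comp (hf j)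

/-- Centred laws with variance one. -/
structure IsLaw (ν : Measure ℝ) : Prop where
  prob : IsProbabilityMeasure ν
  int1 : Integrable (fun t => t) ν
  mean : ∫ t, t ∂ν = 0
  int2 : Integrable (fun t => t ^ 2) ν
  var : ∫ t, t ^ 2 ∂ν = 1

lemma exp_three_le {v : ℝ} (h0 : 0 ≤ v) (h1 : v ≤ 1) : exp (3 * v) ≤ 1 + 20 * v := by
  have h := convexOn_exp.2 (Set.mem_univ (0 : ℝ)) (Set.mem_univ (3 : ℝ))
    (show 0 ≤ 1 - v by linarith) h0 (by ring)
  simp only [smul_eq_mul, mul_zero, zero_add, exp_zero, mul_one] at h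
  have h3 : exp 3 ≤ 21 := by
    have h4 : exp 3 = exp 1 ^ 3 := by rw [← exp_nat_mul]; norm_num
    rw [h4]
    have h5 := exp_one_lt_d9
    have h6 := exp_pos 1
    calc exp 1 ^ 3 ≤ 2.7182818286 ^ 3 := by gcongr
      _ ≤ 21 := by norm_num
  rw [mul_comm 3 v]
  nlinarith

lemma entry_min {ν : Measure ℝ} (hν : IsLaw ν) {n : ℝ} (hn : 0 < n) (m : ℕ) :
    ∫⁻ t, ENNReal.ofReal (exp (3 * 2 ^ m * min (t ^ 2 / n) (1 / 2 ^ m))) ∂ν
      ≤ ENNReal.ofReal (exp (20 * 2 ^ m / n)) := by
  have := hν.prob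
  calc ∫⁻ t, ENNReal.ofReal (exp (3 * 2 ^ m * min (t ^ 2 / n) (1 / 2 ^ m))) ∂ν
      ≤ ∫⁻ t, ENNReal.ofReal (1 + 20 * 2 ^ m / n * t ^ 2) ∂ν := by
        refine lintegral_mono fun t => ENNReal.ofReal_le_ofReal ?_
        set v := 2 ^ m * min (t ^ 2 / n) (1 / 2 ^ m) with hv
        have h0 : 0 ≤ v := by positivity
        have h1 : v ≤ 1 := by
          calc v ≤ 2 ^ m * (1 / 2 ^ m) := by
                rw [hv]; gcongr; exact min_le_right _ _
            _ = 1 := by field_simp
        have h2 : v ≤ 2 ^ m * (t ^ 2 / n) := by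
          rw [hv]; gcongr; exact min_le_left _ _
        rw [mul_assoc, ← hv]
        refine (exp_three_le h0 h1).trans ?_
        have h3 : 20 * 2 ^ m / n * t ^ 2 = 20 * (2 ^ m * (t ^ 2 / n)) := by ring
        rw [h3]
        linarith
    _ = ENNReal.ofReal (∫ t, (1 + 20 * 2 ^ m / n * t ^ 2) ∂ν) := by
        rw [ofReal_integral_eq_lintegral_ofReal]
        · exact (integrable_const _).add (hν.int2.const_mul _)
        · exact Filter.Eventually.of_forall fun t => by positivity
    _ = ENNReal.ofReal (1 + 20 * 2 ^ m / n) := by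
        rw [integral_add (integrable_const _) (hν.int2.const_mul _), integral_const_mul, hν.var]
        simp
    _ ≤ ENNReal.ofReal (exp (20 * 2 ^ m / n)) := by
        apply ENNReal.ofReal_le_ofReal
        have := add_one_le_exp (20 * 2 ^ m / n)
        linarith

lemma row_phi {ν : Measure ℝ} (hν : IsLaw ν) {n : ℕ} (hn : 1 ≤ n) (m : ℕ) :
    ∫⁻ y, ENNReal.ofReal (exp (3 * 2 ^ m * phi n m y)) ∂(Measure.infinitePi (fun _ : Fin n => ν))
      ≤ ENNReal.ofReal (exp (20 * 2 ^ m)) := by
  have := hν.prob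
  have hn0 : (0 : ℝ) < n := by exact_mod_cast hn
  have h1 : ∀ y : Fin n → ℝ, ENNReal.ofReal (exp (3 * 2 ^ m * phi n m y)) =
      ∏ j, ENNReal.ofReal (exp (3 * 2 ^ m * min (y j ^ 2 / n) (1 / 2 ^ m))) := by
    intro y
    rw [← ENNReal.ofReal_prod_of_nonneg (fun _ _ => (exp_pos _).le), ← exp_sum, phi,
      Finset.mul_sum]
  simp_rw [h1]
  rw [lintegral_prod_pi ν (fun (_ : Fin n) t =>
    ENNReal.ofReal (exp (3 * 2 ^ m * min (t ^ 2 / n) (1 / 2 ^ m)))) (fun j => by fun_prop)]
  rw [Finset.prod_const, Finset.card_univ, Fintype.card_fin]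
  calc _ ≤ (ENNReal.ofReal (exp (20 * 2 ^ m / n))) ^ n := by
        gcongr
        exact entry_min hν hn0 m
    _ = ENNReal.ofReal (exp (20 * 2 ^ m)) := by
        rw [← ENNReal.ofReal_pow (exp_pos _).le, ← exp_nat_mul]
        congr 2
        field_simp

lemma measurable_phi {n : ℕ} (r : ℝ) (m : ℕ) : Measurable (phi r m : (Fin n → ℝ) → ℝ) := by
  unfold phi
  fun_prop

lemma measurable_hw {n : ℕ} (r : ℝ) (m0 N : ℕ) : Measurable (hw r m0 N : (Fin n → ℝ) → ℝ) := by
  unfold hw
  refine measurable_const.add ?_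
  refine Finset.measurable_sum _ fun k _ => ?_
  refine Measurable.ite ?_ measurable_const measurable_const
  exact measurableSet_lt measurable_const (measurable_phi r (m0 + k))

lemma row_hw {ν : Measure ℝ} (hν : IsLaw ν) {n : ℕ} (hn : 1 ≤ n) (m0 N : ℕ) :
    ∫⁻ y, ENNReal.ofReal (hw n m0 N y) ∂(Measure.infinitePi (fun _ : Fin n => ν))
      ≤ ENNReal.ofReal (1 + 2 * exp (-20 * 2 ^ m0)) := by
  have := hν.prob
  have h1 : ∀ y : Fin n → ℝ, ENNReal.ofReal (hw n m0 N y) ≤
      1 + ∑ k ∈ Finset.range N, ENNReal.ofReal (exp (-40 * 2 ^ (m0 + k))) *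
        ENNReal.ofReal (exp (3 * 2 ^ (m0 + k) * phi n (m0 + k) y)) := by
    intro y
    have h2 : hw n m0 N y ≤ 1 + ∑ k ∈ Finset.range N, exp (-40 * 2 ^ (m0 + k)) *
        exp (3 * 2 ^ (m0 + k) * phi n (m0 + k) y) := by
      unfold hw
      gcongr with k _
      split_ifs with h
      · rw [← exp_add]
        apply exp_le_exp.2
        have h3 : (0 : ℝ) < 2 ^ (m0 + k) := by positivity
        nlinarith
      · positivity
    refine (ENNReal.ofReal_le_ofReal h2).trans ?_
    rw [ENNReal.ofReal_add (by norm_num) (Finset.sum_nonneg fun _ _ => by positivity),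
      ENNReal.ofReal_one, ENNReal.ofReal_sum_of_nonneg (fun _ _ => by positivity)]
    gcongr with k _
    rw [ENNReal.ofReal_mul (exp_pos _).le]
  calc _ ≤ ∫⁻ y, (1 + ∑ k ∈ Finset.range N, ENNReal.ofReal (exp (-40 * 2 ^ (m0 + k))) *
        ENNReal.ofReal (exp (3 * 2 ^ (m0 + k) * phi n (m0 + k) y)))
        ∂(Measure.infinitePi (fun _ : Fin n => ν)) := lintegral_mono h1
    _ = 1 + ∑ k ∈ Finset.range N, ENNReal.ofReal (exp (-40 * 2 ^ (m0 + k))) *
        ∫⁻ y, ENNReal.ofReal (exp (3 * 2 ^ (m0 + k) * phi n (m0 + k) y))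
        ∂(Measure.infinitePi (fun _ : Fin n => ν)) := by
        rw [lintegral_add_left measurable_const, lintegral_finsetSum]
        · simp only [lintegral_const, measure_univ, mul_one]
          congr 1
          refine Finset.sum_congr rfl fun k _ => ?_
          rw [lintegral_const_mul]
          have := measurable_phi (n := n) (n : ℝ) (m0 + k)
          fun_prop
        · intro k _
          have := measurable_phi (n := n) (n : ℝ) (m0 + k)
          fun_prop
    _ ≤ 1 + ∑ k ∈ Finset.range N, ENNReal.ofReal (exp (-40 * 2 ^ (m0 + k))) *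
        ENNReal.ofReal (exp (20 * 2 ^ (m0 + k))) := by
        gcongr with k _
        exact row_phi hν hn (m0 + k)
    _ = ENNReal.ofReal (1 + ∑ k ∈ Finset.range N, exp (-20 * 2 ^ (m0 + k))) := by
        rw [ENNReal.ofReal_add (by norm_num) (Finset.sum_nonneg fun _ _ => by positivity),
          ENNReal.ofReal_one, ENNReal.ofReal_sum_of_nonneg (fun _ _ => by positivity)]
        congr 1
        refine Finset.sum_congr rfl fun k _ => ?_
        rw [← ENNReal.ofReal_mul (exp_pos _).le, ← exp_add]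
        congr 2
        ring
    _ ≤ ENNReal.ofReal (1 + 2 * exp (-20 * 2 ^ m0)) := by
        apply ENNReal.ofReal_le_ofReal
        gcongr
        calc ∑ k ∈ Finset.range N, exp (-20 * 2 ^ (m0 + k))
            ≤ ∑ k ∈ Finset.range N, exp (-20 * 2 ^ m0) * (1 / 2) ^ k := by
              refine Finset.sum_le_sum fun k _ => ?_
              have h3 : ((1 : ℝ) / 2) ^ k = exp (-(k * log 2)) := by
                rw [exp_neg, mul_comm, exp_mul, exp_log (by norm_num), rpow_natCast, one_div,
                  inv_pow]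
              rw [h3, ← exp_add]
              apply exp_le_exp.2
              have h4 : (2 : ℝ) ^ m0 + k ≤ 2 ^ (m0 + k) := by
                have h5 : (m0 : ℕ) < 2 ^ m0 := Nat.lt_two_pow_self
                have h6 : 2 ^ m0 + k ≤ 2 ^ (m0 + k) := by
                  rw [pow_add]
                  have h7 : k + 1 ≤ 2 ^ k := Nat.lt_two_pow_self
                  have h8 : 1 ≤ 2 ^ m0 := Nat.one_le_two_pow
                  nlinarith
                exact_mod_cast h6
              have h5 : log 2 ≤ 1 := by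
                have := log_two_lt_d9
                linarith
              have h6 : (0 : ℝ) ≤ k := by positivity
              nlinarith
          _ = exp (-20 * 2 ^ m0) * ∑ k ∈ Finset.range N, (1 / 2) ^ k := by
              rw [Finset.mul_sum]
          _ ≤ exp (-20 * 2 ^ m0) * 2 := by
              gcongr
              have := sum_geometric_two_le N
              exact this
          _ = 2 * exp (-20 * 2 ^ m0) := by ring

end Pool.Agent.H97.Reg
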