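import Pool.Agent.H97.Reg.Groth

set_option autoImplicit false

/-! Selection of columns over dyadic scales, the Schur test and duality. -/

open Finset

namespace Pool.Agent.H97.Reg

variable {ι κ : Type*} [Fintype ι] [Fintype κ] [DecidableEq κ]

/-- Sign vectors supported exactly on `J`. -/
def SignVec (J : Finset κ) (x : κ → ℝ) : Prop :=
  (∀ j ∈ J, x j = 1 ∨ x j = -1) ∧ ∀ j, j ∉ J → x j = 0

omit [DecidableEq κ] in
lemma q_congr_supp (B B' : ι → κ → ℝ) (x : κ → ℝ) (h : ∀ i j, x j ≠ 0 → B i j = B' i j) :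
    q B x = q B' x := by
  unfold q
  refine Finset.sum_congr rfl fun i _ => ?_
  congr 1
  refine Finset.sum_congr rfl fun j _ => ?_
  by_cases hx : x j = 0
  · simp [hx]
  · rw [h i j hx]

omit [DecidableEq κ] in
lemma convexOn_q (B : ι → κ → ℝ) : ConvexOn ℝ Set.univ (q B) := by
  refine ⟨convex_univ, fun x _ y _ a b ha hb hab => ?_⟩
  simp only [smul_eq_mul]
  unfold q
  rw [Finset.mul_sum, Finset.mul_sum, ← Finset.sum_add_distrib]
  refine Finset.sum_le_sum fun i _ => ?_
  have h1 : ∑ j, B i j * (a • x + b • y) j = a * (∑ j, B i j * x j) + b * ∑ j, B i j * y j := by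
    rw [Finset.mul_sum, Finset.mul_sum, ← Finset.sum_add_distrib]
    refine Finset.sum_congr rfl fun j _ => ?_
    simp only [Pi.add_apply, Pi.smul_apply, smul_eq_mul]
    ring
  rw [h1]
  set u := ∑ j, B i j * x j
  set v := ∑ j, B i j * y j
  have hb' : b = 1 - a := by linarith
  subst hb'
  nlinarith [mul_nonneg (mul_nonneg ha hb) (sq_nonneg (u - v))]

/-- Maximum over the cube is attained at sign vectors. -/
lemma cube {B : ι → κ → ℝ} {J : Finset κ} {b : ℝ} (h : ∀ x, SignVec J x → q B x ≤ b)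
    (x : κ → ℝ) (hx : ∀ j ∈ J, |x j| ≤ 1) (hx0 : ∀ j, j ∉ J → x j = 0) : q B x ≤ b := by
  set t : κ → Set ℝ := fun j => if j ∈ J then {-1, 1} else {0} with ht
  have h1 : x ∈ convexHull ℝ (Set.univ.pi t) := by
    rw [convexHull_pi]
    intro j _
    simp only [ht]
    split_ifs with hj
    · rw [convexHull_pair, segment_eq_Icc (by norm_num)]
      exact abs_le.1 (hx j hj)
    · rw [convexHull_singleton]
      exact hx0 j hj
  obtain ⟨y, hy, hxy⟩ := (convexOn_q B).exists_ge_of_mem_convexHull (Set.subset_univ _) h1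
  refine hxy.trans (h y ⟨fun j hj => ?_, fun j hj => ?_⟩)
  · have := hy j (Set.mem_univ j)
    simp only [ht, if_pos hj] at this
    rcases this with h2 | h2
    · exact Or.inr h2
    · exact Or.inl h2
  · have := hy j (Set.mem_univ j)
    simp only [ht, if_neg hj] at this
    exact this

/-- One step of the selection. -/
lemma step {B : ι → κ → ℝ} {J : Finset κ} {b : ℝ} (h : ∀ x, SignVec J x → q B x ≤ b) {T : ℝ}
    (hT : 0 ≤ T) : ∃ J' ⊆ J, (J'.card : ℝ) * T ≤ 96 * b ∧
      ∀ x : κ → ℝ, (∀ j, j ∉ J \ J' → x j = 0) → q B x ≤ T * ∑ j, x j ^ 2 := by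
  set B' : ι → κ → ℝ := fun i j => if j ∈ J then B i j else 0 with hB'
  have hq : ∀ x : κ → ℝ, q B' x = q B (fun j => if j ∈ J then x j else 0) := by
    intro x
    unfold q
    refine Finset.sum_congr rfl fun i _ => ?_
    congr 1
    refine Finset.sum_congr rfl fun j _ => ?_
    simp only [hB']
    split_ifs <;> simp
  have h1 : Fam B' (48 * b) := by
    refine groth fun x hx => ?_
    rw [hq]
    refine cube h _ (fun j hj => ?_) (fun j hj => ?_)
    · simp only [if_pos hj]; exact hx j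
    · simp only [if_neg hj]
  obtain ⟨Sat, h2, h3⟩ := select h1 hT
  refine ⟨Sat ∩ J, Finset.inter_subset_right, ?_, ?_⟩
  · have h4 : ((Sat ∩ J).card : ℝ) ≤ Sat.card := by
      exact_mod_cast Finset.card_le_card Finset.inter_subset_left
    calc ((Sat ∩ J).card : ℝ) * T ≤ Sat.card * T := by gcongr
      _ ≤ 2 * (48 * b) := h2
      _ = 96 * b := by ring
  · intro x hx
    have h4 : q B x = q B' x := by
      refine q_congr_supp _ _ _ fun i j hj => ?_
      have : j ∈ J := by
        by_contra hc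
        exact hj (hx j (by simp [hc]))
      simp only [hB', if_pos this]
    rw [h4]
    refine h3 x fun j hj => hx j ?_
    simp only [Finset.mem_sdiff, Finset.mem_inter, not_and]
    exact fun hjJ hc => hc hj hjJ

/-- Selection over dyadic scales. -/
theorem multiscale {B : ι → κ → ℝ} {n : ℝ} (hn : 0 < n) (J0 : Finset κ)
    (hJ0 : (J0.card : ℝ) ≤ n) (b : ℕ → ℝ) (hb0 : ∀ l, 0 < b l) (M : ℕ)
    (hb : ∀ l < M, ∀ J ⊆ J0, (J.card : ℝ) ≤ n / 2 ^ l → ∀ x, SignVec J x → q B x ≤ b l) :
    ∃ J' ⊆ J0, (J'.card : ℝ) ≤ n / 2 ^ M ∧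
      ∀ x : κ → ℝ, (∀ j, j ∉ J0 \ J' → x j = 0) →
        q B x ≤ (∑ l ∈ range M, 192 * 2 ^ l * b l / n) * ∑ j, x j ^ 2 := by
  induction M with
  | zero =>
    refine ⟨J0, le_rfl, by simpa using hJ0, fun x hx => ?_⟩
    have : x = fun _ => 0 := by
      funext j
      exact hx j (by simp)
    subst this
    simp [q]
  | succ M ih =>
    obtain ⟨J, hJ, hJc, hJx⟩ := ih fun l hl => hb l (Nat.lt_succ_of_lt hl)
    have hT : 0 < 192 * 2 ^ M * b M / n := by
      have := hb0 M
      positivity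
    obtain ⟨J', h1, h2, h3⟩ := step (hb M (Nat.lt_succ_self M) J hJ hJc) hT.le
    refine ⟨J', h1.trans hJ, ?_, fun x hx => ?_⟩
    · have h4 : (J'.card : ℝ) * (192 * 2 ^ M * b M / n) ≤ (n / 2 ^ (M + 1)) *
          (192 * 2 ^ M * b M / n) := by
        refine h2.trans (le_of_eq ?_)
        rw [pow_succ]
        field_simp
        ring
      exact le_of_mul_le_mul_right h4 hT
    · set x1 : κ → ℝ := fun j => if j ∈ J then 0 else x j with hx1
      set x2 : κ → ℝ := fun j => if j ∈ J then x j else 0 with hx2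
      have hx12 : x = fun j => x1 j + x2 j := by
        funext j
        simp only [hx1, hx2]
        split_ifs <;> simp
      have hs : ∑ j, x j ^ 2 = ∑ j, x1 j ^ 2 + ∑ j, x2 j ^ 2 := by
        rw [← Finset.sum_add_distrib]
        refine Finset.sum_congr rfl fun j _ => ?_
        simp only [hx1, hx2]
        split_ifs <;> simp
      have h5 := hJx x1 fun j hj => by
        simp only [hx1]
        split_ifs with hjJ
        · rfl
        · apply hx
          intro hc
          apply hj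
          rw [Finset.mem_sdiff] at hc ⊢
          exact ⟨hc.1, hjJ⟩
      have h6 := h3 x2 fun j hj => by
        simp only [hx2]
        split_ifs with hjJ
        · apply hx
          intro hc
          apply hj
          rw [Finset.mem_sdiff] at hc ⊢
          exact ⟨hjJ, hc.2⟩
        · rfl
      rw [Finset.sum_range_succ, hs]
      conv_lhs => rw [hx12]
      refine q_combine B x1 x2 ?_ hT.le (Finset.sum_nonneg fun _ _ => sq_nonneg _)
        (Finset.sum_nonneg fun _ _ => sq_nonneg _) h5 h6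
      refine Finset.sum_nonneg fun l _ => ?_
      have := hb0 l
      positivity

/-- The Schur test for sparse matrices. -/
theorem schur {S : ι → κ → ℝ} {h Δ : ℝ} (J : Finset κ) (hh : 0 ≤ h)
    (hS : ∀ i j, S i j ^ 2 ≤ h) (hΔ : 0 ≤ Δ) (hrow : ∀ i, ((J.filter (fun j => S i j ≠ 0)).card : ℝ) ≤ Δ)
    (hcol : ∀ j ∈ J, ((univ.filter (fun i => S i j ≠ 0)).card : ℝ) ≤ Δ) (x : κ → ℝ)
    (hx : ∀ j, j ∉ J → x j = 0) : q S x ≤ h * Δ ^ 2 * ∑ j, x j ^ 2 := by
  have h0 : ∀ i, (∑ j, S i j * x j) ^ 2 ≤ Δ * (h * ∑ j ∈ J, if S i j ≠ 0 then x j ^ 2 else 0) := by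
    intro i
    have h1 : ∑ j, S i j * x j = ∑ j ∈ J.filter (fun j => S i j ≠ 0), 1 * (S i j * x j) := by
      simp only [one_mul]
      symm
      apply Finset.sum_subset (Finset.subset_univ _)
      intro j _ hj
      rw [Finset.mem_filter, not_and_or, not_not] at hj
      rcases hj with hj | hj
      · rw [hx j hj, mul_zero]
      · rw [hj, zero_mul]
    rw [h1]
    refine (Finset.sum_mul_sq_le_sq_mul_sq _ _ _).trans ?_
    simp only [one_pow, Finset.sum_const, nsmul_eq_mul, mul_one]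
    have h2 : ∑ j ∈ J.filter (fun j => S i j ≠ 0), (S i j * x j) ^ 2 ≤
        h * ∑ j ∈ J, if S i j ≠ 0 then x j ^ 2 else 0 := by
      rw [← Finset.sum_filter, Finset.mul_sum]
      refine Finset.sum_le_sum fun j _ => ?_
      rw [mul_pow]
      exact mul_le_mul_of_nonneg_right (hS i j) (sq_nonneg _)
    apply mul_le_mul (hrow i) h2 (Finset.sum_nonneg fun _ _ => sq_nonneg _) hΔ
  calc q S x ≤ ∑ i, Δ * (h * ∑ j ∈ J, if S i j ≠ 0 then x j ^ 2 else 0) :=
        Finset.sum_le_sum fun i _ => h0 i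
    _ = Δ * (h * ∑ j ∈ J, ((univ.filter (fun i => S i j ≠ 0)).card : ℝ) * x j ^ 2) := by
        rw [← Finset.mul_sum, ← Finset.mul_sum, Finset.sum_comm]
        congr 2
        refine Finset.sum_congr rfl fun j _ => ?_
        rw [← Finset.sum_filter, Finset.sum_const, nsmul_eq_mul]
    _ ≤ Δ * (h * ∑ j ∈ J, Δ * x j ^ 2) := by
        gcongr with j hj
        exact hcol j hj
    _ = h * Δ ^ 2 * ∑ j ∈ J, x j ^ 2 := by
        rw [← Finset.mul_sum]; ring
    _ = h * Δ ^ 2 * ∑ j, x j ^ 2 := by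
        congr 1
        apply Finset.sum_subset (Finset.subset_univ _)
        intro j _ hj
        rw [hx j hj]; simp

end Pool.Agent.H97.Reg
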