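import Pool.Agent.H97.Reg.Multi

set_option autoImplicit false

/-! Regularisation of rows by removing few columns, and the one-sided deterministic bound. -/

open Finset

namespace Pool.Agent.H97.Reg

section Row

variable {κ : Type*} [Fintype κ]

/-- Truncated sum of squares of a row. -/
noncomputable def phi (n : ℝ) (m : ℕ) (y : κ → ℝ) : ℝ := ∑ j, min (y j ^ 2 / n) (1 / 2 ^ m)

open Classical in
/-- Weight of a row. -/
noncomputable def hw (n : ℝ) (m0 N : ℕ) (y : κ → ℝ) : ℝ :=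
  1 + ∑ k ∈ range N, if 40 < phi n (m0 + k) y then Real.exp (80 * 2 ^ (m0 + k)) else 0

lemma one_le_hw (n : ℝ) (m0 N : ℕ) (y : κ → ℝ) : 1 ≤ hw n m0 N y := by
  unfold hw
  have : 0 ≤ ∑ k ∈ range N, if 40 < phi n (m0 + k) y then Real.exp (80 * 2 ^ (m0 + k)) else 0 := by
    refine Finset.sum_nonneg fun k _ => ?_
    split_ifs
    · positivity
    · exact le_rfl
  linarith

lemma phi_le_card (n : ℝ) (m : ℕ) (y : κ → ℝ) : phi n m y ≤ Fintype.card κ / 2 ^ m := by
  unfold phi
  calc ∑ j, min (y j ^ 2 / n) (1 / 2 ^ m) ≤ ∑ _j : κ, (1 : ℝ) / 2 ^ m :=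
        Finset.sum_le_sum fun j _ => min_le_right _ _
    _ = Fintype.card κ / 2 ^ m := by simp [div_eq_mul_inv]

/-- A count is controlled by a truncated sum. -/
lemma card_le_of_sum {n : ℝ} (m : ℕ) (y : κ → ℝ) (J : Finset κ) (U : Finset κ)
    (hn : 0 < n) (hU : ∀ j ∈ U, j ∈ J ∧ 1 / 2 ^ m ≤ y j ^ 2 / n) {C : ℝ}
    (hC : ∑ j ∈ J, min (y j ^ 2 / n) (1 / 2 ^ m) ≤ C) : (U.card : ℝ) ≤ C * 2 ^ m := by
  have h1 : (U.card : ℝ) * (1 / 2 ^ m) ≤ C := by
    calc (U.card : ℝ) * (1 / 2 ^ m) = ∑ _j ∈ U, (1 : ℝ) / 2 ^ m := by simp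
      _ ≤ ∑ j ∈ U, min (y j ^ 2 / n) (1 / 2 ^ m) :=
          Finset.sum_le_sum fun j hj => le_min (hU j hj).2 le_rfl
      _ ≤ ∑ j ∈ J, min (y j ^ 2 / n) (1 / 2 ^ m) :=
          Finset.sum_le_sum_of_subset_of_nonneg (fun j hj => (hU j hj).1) fun j _ _ => by
            positivity
      _ ≤ C := hC
  have h2 : (0 : ℝ) < 2 ^ m := by positivity
  rw [mul_one_div, div_le_iff₀ h2] at h1
  exact h1

/-- Few large entries of a row can be removed to make the truncated sum small. -/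
lemma exists_T [DecidableEq κ] {n : ℝ} (hn : 0 < n) (m0 N : ℕ) (hN : Fintype.card κ ≤ 2 ^ N) (y : κ → ℝ) :
    ∃ T : Finset κ, ∑ j ∈ univ \ T, min (y j ^ 2 / n) (1 / 2 ^ m0) ≤ 40 ∧
      Real.exp T.card ≤ hw n m0 N y := by
  classical
  have hphiN : phi n (m0 + N) y ≤ 40 := by
    refine (phi_le_card n (m0 + N) y).trans ?_
    have h1 : (Fintype.card κ : ℝ) ≤ 2 ^ N := by exact_mod_cast hN
    have h2 : (2 : ℝ) ^ N ≤ 2 ^ (m0 + N) := pow_le_pow_right₀ (by norm_num) (by omega)
    rw [div_le_iff₀ (by positivity)]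
    have h3 : (0 : ℝ) < 2 ^ (m0 + N) := by positivity
    linarith
  have hex : ∃ k, phi n (m0 + k) y ≤ 40 := ⟨N, hphiN⟩
  set k0 := Nat.find hex with hk0
  have hk1 : phi n (m0 + k0) y ≤ 40 := Nat.find_spec hex
  have hk2 : k0 ≤ N := Nat.find_min' hex hphiN
  rcases Nat.eq_zero_or_pos k0 with h0 | h0
  · refine ⟨∅, ?_, ?_⟩
    · rw [h0] at hk1
      simpa [phi] using hk1
    · simpa using one_le_hw n m0 N y
  · set T : Finset κ := univ.filter (fun j => 1 / 2 ^ (m0 + k0) < y j ^ 2 / n) with hT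
    refine ⟨T, ?_, ?_⟩
    · have hle : (1 : ℝ) / 2 ^ (m0 + k0) ≤ 1 / 2 ^ m0 := by
        apply one_div_le_one_div_of_le (by positivity)
        exact pow_le_pow_right₀ (by norm_num) (by omega)
      calc ∑ j ∈ univ \ T, min (y j ^ 2 / n) (1 / 2 ^ m0)
          ≤ ∑ j ∈ univ \ T, min (y j ^ 2 / n) (1 / 2 ^ (m0 + k0)) := by
            refine Finset.sum_le_sum fun j hj => ?_
            have h1 : y j ^ 2 / n ≤ 1 / 2 ^ (m0 + k0) := by
              simpa [hT] using hj
            rw [min_eq_left h1, min_eq_left (h1.trans hle)]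
        _ ≤ phi n (m0 + k0) y := by
            unfold phi
            exact Finset.sum_le_sum_of_subset_of_nonneg (Finset.subset_univ _) fun j _ _ => by
              positivity
        _ ≤ 40 := hk1
    · have h1 : (T.card : ℝ) ≤ 40 * 2 ^ (m0 + k0) := by
        refine card_le_of_sum (m0 + k0) y univ T hn (fun j hj => ⟨Finset.mem_univ j, ?_⟩) hk1
        exact (Finset.mem_filter.1 hj).2.le
      have h2 : (40 : ℝ) * 2 ^ (m0 + k0) = 80 * 2 ^ (m0 + (k0 - 1)) := by
        obtain ⟨k, hk⟩ : ∃ k, k0 = k + 1 := ⟨k0 - 1, by omega⟩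
        rw [hk, Nat.add_sub_cancel, ← Nat.add_assoc, pow_succ]
        ring
      have h3 : 40 < phi n (m0 + (k0 - 1)) y := by
        have := Nat.find_min hex (show k0 - 1 < k0 by omega)
        push Not at this
        exact this
      have h4 : (if 40 < phi n (m0 + (k0 - 1)) y then Real.exp (80 * 2 ^ (m0 + (k0 - 1))) else 0)
          ≤ ∑ k ∈ range N, if 40 < phi n (m0 + k) y then Real.exp (80 * 2 ^ (m0 + k)) else 0 := by
        refine Finset.single_le_sum (f := fun k => if 40 < phi n (m0 + k) y then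
          Real.exp (80 * 2 ^ (m0 + k)) else 0) (fun k _ => ?_)
          (Finset.mem_range.2 (by omega))
        split_ifs
        · positivity
        · exact le_rfl
      rw [if_pos h3] at h4
      calc Real.exp T.card ≤ Real.exp (80 * 2 ^ (m0 + (k0 - 1))) := by
            rw [← h2]; exact Real.exp_le_exp.2 h1
        _ ≤ _ := h4
        _ ≤ hw n m0 N y := by unfold hw; linarith

end Row

/-- Truncation of an entry. -/
noncomputable def trunc (n : ℝ) (m0 : ℕ) (t : ℝ) : ℝ := if t ^ 2 / n ≤ 1 / 2 ^ m0 then t else 0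

lemma trunc_sq_le {n : ℝ} (hn : 0 < n) (m0 : ℕ) (t : ℝ) :
    trunc n m0 t ^ 2 ≤ n * min (t ^ 2 / n) (1 / 2 ^ m0) := by
  unfold trunc
  split_ifs with h
  · rw [min_eq_left h]
    field_simp
    exact le_rfl
  · simp only [ne_eq, OfNat.ofNat_ne_zero, not_false_eq_true, zero_pow]
    positivity

section OneSided

variable {n : ℕ}

/-- Centred truncated row product, set to zero on heavy rows. -/
noncomputable def WW (m0 : ℕ) (mb : ℝ) (y x : Fin n → ℝ) : ℝ :=
  if ∑ j, trunc n m0 (y j) ^ 2 * x j ^ 2 ≤ 40 * n then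
    (∑ j, (trunc n m0 (y j) - mb) * x j) ^ 2 else 0

theorem oneSided (hn : 1 ≤ n) {K ε mb : ℝ} (hK : 1 ≤ K) (m0 M N : ℕ) (hN : n ≤ 2 ^ N)
    (a : Fin n → Fin n → ℝ) (hbd : ∀ i j, a i j ^ 2 ≤ K ^ 2 * n)
    (h1 : ∏ i, hw n m0 N (a i) < Real.exp (ε * n / 4))
    (h2 : ∏ j, hw n m0 N (fun i => a i j) < Real.exp (ε * n / 4))
    (hmb : mb ^ 2 * n ≤ 2 ^ m0) (u : ℕ → ℝ) (hu : ∀ l, 0 < u l)
    (h3 : ∀ l < M, ∀ J : Finset (Fin n), (J.card : ℝ) ≤ n / 2 ^ l → ∀ x, SignVec J x →
      ∑ i, WW m0 mb (a i) x ≤ u l)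
    (hM : (n : ℝ) / 2 ^ M ≤ ε * n / 2) :
    ∃ J : Finset (Fin n), (J.card : ℝ) ≤ ε * n ∧ ∀ x : Fin n → ℝ, (∀ j ∈ J, x j = 0) →
      q a x ≤ 3 * (K ^ 2 * n * (40 * 2 ^ m0) ^ 2 + (∑ l ∈ range M, 192 * 2 ^ l * u l / n)
        + n * 2 ^ m0) * ∑ j, x j ^ 2 := by
  classical
  have hn0 : (0 : ℝ) < n := by exact_mod_cast hn
  have hcard : Fintype.card (Fin n) ≤ 2 ^ N := by simpa using hN
  choose T hT1 hT2 using fun i => exists_T hn0 m0 N hcard (a i)
  choose T' hT1' hT2' using fun j => exists_T hn0 m0 N hcard (fun i => a i j)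
  set heavy : Finset (Fin n) := univ.filter (fun j => (T' j).Nonempty) with hheavy
  set Jbad : Finset (Fin n) := (univ.biUnion T) ∪ heavy with hJbad
  have hsum : ∀ (R : Fin n → Finset (Fin n)) (f : Fin n → ℝ),
      (∀ i, Real.exp (R i).card ≤ f i) → ∏ i, f i < Real.exp (ε * n / 4) →
      ∑ i, ((R i).card : ℝ) < ε * n / 4 := by
    intro R f hR hf
    rw [← Real.exp_lt_exp, Real.exp_sum]
    refine lt_of_le_of_lt ?_ hf
    exact Finset.prod_le_prod (fun i _ => (Real.exp_pos _).le) fun i _ => hR i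
  have hs1 := hsum T _ hT2 h1
  have hs2 := hsum T' _ hT2' h2
  have hc1 : ((univ.biUnion T).card : ℝ) ≤ ε * n / 4 := by
    refine le_trans ?_ hs1.le
    exact_mod_cast Finset.card_biUnion_le
  have hc2 : (heavy.card : ℝ) ≤ ε * n / 4 := by
    refine le_trans ?_ hs2.le
    calc (heavy.card : ℝ) = ∑ _j ∈ heavy, (1 : ℝ) := by simp
      _ ≤ ∑ j ∈ heavy, ((T' j).card : ℝ) := by
          refine Finset.sum_le_sum fun j hj => ?_
          have : 1 ≤ (T' j).card := Finset.card_pos.2 (Finset.mem_filter.1 hj).2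
          exact_mod_cast this
      _ ≤ ∑ j, ((T' j).card : ℝ) :=
          Finset.sum_le_sum_of_subset_of_nonneg (Finset.subset_univ _) fun _ _ _ => by positivity
  have hbad : (Jbad.card : ℝ) ≤ ε * n / 2 := by
    have : (Jbad.card : ℝ) ≤ (univ.biUnion T).card + heavy.card := by
      exact_mod_cast Finset.card_union_le _ _
    linarith
  set J0 : Finset (Fin n) := univ \ Jbad with hJ0
  -- rows restricted to `J0`
  have hrow : ∀ i, ∑ j ∈ J0, min (a i j ^ 2 / n) (1 / 2 ^ m0) ≤ 40 := by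
    intro i
    refine le_trans ?_ (hT1 i)
    refine Finset.sum_le_sum_of_subset_of_nonneg ?_ fun j _ _ => by positivity
    intro j hj
    rw [hJ0, Finset.mem_sdiff] at hj
    rw [Finset.mem_sdiff]
    refine ⟨Finset.mem_univ j, fun hc => hj.2 ?_⟩
    rw [hJbad, Finset.mem_union, Finset.mem_biUnion]
    exact Or.inl ⟨i, Finset.mem_univ i, hc⟩
  have hcol : ∀ j ∈ J0, ∑ i ∈ univ, min (a i j ^ 2 / n) (1 / 2 ^ m0) ≤ 40 := by
    intro j hj
    rw [hJ0, Finset.mem_sdiff, hJbad, Finset.mem_union, not_or] at hj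
    have h4 : T' j = ∅ := by
      have := hj.2.2
      rw [hheavy, Finset.mem_filter, not_and] at this
      exact Finset.not_nonempty_iff_eq_empty.1 (this (Finset.mem_univ j))
    have h5 := hT1' j
    rw [h4, Finset.sdiff_empty] at h5
    exact h5
  set S : Fin n → Fin n → ℝ := fun i j => a i j - trunc n m0 (a i j) with hS
  set B : Fin n → Fin n → ℝ := fun i j => trunc n m0 (a i j) - mb with hB
  -- the large part
  have hSne : ∀ i j, S i j ≠ 0 → 1 / 2 ^ m0 ≤ a i j ^ 2 / n := by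
    intro i j h
    by_contra hc
    push Not at hc
    apply h
    simp only [hS, trunc, if_pos hc.le, sub_self]
  have hSb : ∀ i j, S i j ^ 2 ≤ K ^ 2 * n := by
    intro i j
    simp only [hS, trunc]
    split_ifs
    · simp only [sub_self, ne_eq, OfNat.ofNat_ne_zero, not_false_eq_true, zero_pow]
      positivity
    · simpa using hbd i j
  have hqS : ∀ x : Fin n → ℝ, (∀ j, j ∉ J0 → x j = 0) →
      q S x ≤ K ^ 2 * n * (40 * 2 ^ m0) ^ 2 * ∑ j, x j ^ 2 := by
    intro x hx
    refine schur J0 (by positivity) hSb (by positivity) ?_ ?_ x hx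
    · intro i
      refine card_le_of_sum m0 (a i) J0 _ hn0 ?_ (hrow i)
      intro j hj
      rw [Finset.mem_filter] at hj
      exact ⟨hj.1, hSne i j hj.2⟩
    · intro j hj
      refine card_le_of_sum m0 (fun i => a i j) univ _ hn0 ?_ (hcol j hj)
      intro i hi
      rw [Finset.mem_filter] at hi
      exact ⟨Finset.mem_univ i, hSne i j hi.2⟩
  -- the small part
  have hqB : ∀ l < M, ∀ J ⊆ J0, (J.card : ℝ) ≤ n / 2 ^ l → ∀ x, SignVec J x → q B x ≤ u l := by
    intro l hl J hJ hJc x hx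
    refine le_trans (le_of_eq ?_) (h3 l hl J hJc x hx)
    unfold q
    refine Finset.sum_congr rfl fun i _ => ?_
    unfold WW
    rw [if_pos]
    calc ∑ j, trunc n m0 (a i j) ^ 2 * x j ^ 2
        ≤ ∑ j ∈ J0, (n : ℝ) * min (a i j ^ 2 / n) (1 / 2 ^ m0) := by
          have h4 : ∑ j, trunc n m0 (a i j) ^ 2 * x j ^ 2 =
              ∑ j ∈ J0, trunc n m0 (a i j) ^ 2 * x j ^ 2 := by
            symm
            apply Finset.sum_subset (Finset.subset_univ _)
            intro j _ hj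
            rw [hx.2 j (fun hc => hj (hJ hc))]
            simp
          rw [h4]
          refine Finset.sum_le_sum fun j _ => ?_
          have h5 : x j ^ 2 ≤ 1 := by
            by_cases hjJ : j ∈ J
            · rcases hx.1 j hjJ with h6 | h6 <;> rw [h6] <;> norm_num
            · rw [hx.2 j hjJ]; norm_num
          calc trunc n m0 (a i j) ^ 2 * x j ^ 2 ≤ trunc n m0 (a i j) ^ 2 * 1 := by gcongr
            _ ≤ _ := by rw [mul_one]; exact trunc_sq_le hn0 m0 _
      _ ≤ 40 * n := by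
          rw [← Finset.mul_sum, mul_comm]
          gcongr
          exact hrow i
  have hJ0c : (J0.card : ℝ) ≤ n := by
    have := Finset.card_le_univ J0
    rw [Fintype.card_fin] at this
    exact_mod_cast this
  obtain ⟨J', hJ', hJ'c, hJ'x⟩ := multiscale hn0 J0 hJ0c u hu M hqB
  refine ⟨Jbad ∪ J', ?_, ?_⟩
  · have : ((Jbad ∪ J').card : ℝ) ≤ Jbad.card + J'.card := by
      exact_mod_cast Finset.card_union_le _ _
    linarith
  · intro x hx
    have hx0 : ∀ j, j ∉ J0 → x j = 0 := by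
      intro j hj
      apply hx
      rw [hJ0, Finset.mem_sdiff, not_and, not_not] at hj
      exact Finset.mem_union_left _ (hj (Finset.mem_univ j))
    have hx1 : ∀ j, j ∉ J0 \ J' → x j = 0 := by
      intro j hj
      rw [Finset.mem_sdiff, not_and_or, not_not] at hj
      rcases hj with hj | hj
      · exact hx0 j hj
      · exact hx j (Finset.mem_union_right _ hj)
    have e1 := hqS x hx0
    have e2 := hJ'x x hx1
    have e3 : q (fun _ _ : Fin n => mb) x ≤ n * 2 ^ m0 * ∑ j, x j ^ 2 := by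
      refine (q_le _ x).trans ?_
      simp only [Finset.sum_const, Finset.card_univ, Fintype.card_fin, nsmul_eq_mul]
      have h4 : (n : ℝ) * (n * mb ^ 2) ≤ n * 2 ^ m0 := by
        gcongr
        linarith
      exact mul_le_mul_of_nonneg_right h4 (Finset.sum_nonneg fun _ _ => sq_nonneg _)
    have e4 : q a x ≤ 3 * (q S x + q B x + q (fun _ _ : Fin n => mb) x) := by
      unfold q
      rw [← Finset.sum_add_distrib, ← Finset.sum_add_distrib, Finset.mul_sum]
      refine Finset.sum_le_sum fun i _ => ?_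
      have h5 : ∑ j, a i j * x j = ∑ j, S i j * x j + ∑ j, B i j * x j + ∑ j, mb * x j := by
        rw [← Finset.sum_add_distrib, ← Finset.sum_add_distrib]
        refine Finset.sum_congr rfl fun j _ => ?_
        simp only [hS, hB]
        ring
      rw [h5]
      set p := ∑ j, S i j * x j
      set r := ∑ j, B i j * x j
      set s := ∑ j, mb * x j
      nlinarith [sq_nonneg (p - r), sq_nonneg (p - s), sq_nonneg (r - s)]
    calc q a x ≤ 3 * (q S x + q B x + q (fun _ _ : Fin n => mb) x) := e4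
      _ ≤ 3 * (K ^ 2 * n * (40 * 2 ^ m0) ^ 2 * ∑ j, x j ^ 2
          + (∑ l ∈ range M, 192 * 2 ^ l * u l / n) * ∑ j, x j ^ 2
          + n * 2 ^ m0 * ∑ j, x j ^ 2) := by gcongr
      _ = _ := by ring

end OneSided

/-- Combining the two one-sided bounds. -/
theorem twoSided {n : ℕ} (a : Fin n → Fin n → ℝ) {T : ℝ} (hT : 0 ≤ T) (I J : Finset (Fin n))
    (hJ : ∀ x : Fin n → ℝ, (∀ j ∈ J, x j = 0) → q a x ≤ T * ∑ j, x j ^ 2)
    (hI : ∀ y : Fin n → ℝ, (∀ i ∈ I, y i = 0) → q (fun j i => a i j) y ≤ T * ∑ i, y i ^ 2)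
    (x : Fin n → ℝ) :
    q (fun i j => if i ∈ I ∧ j ∈ J then 0 else a i j) x ≤ 2 * T * ∑ j, x j ^ 2 := by
  classical
  -- rows outside `I`
  set z : Fin n → ℝ := fun i => if i ∈ I then 0 else ∑ j, a i j * x j with hz
  have h1 : ∑ i, z i ^ 2 ≤ T * ∑ j, x j ^ 2 := by
    have h2 : ∑ i, z i ^ 2 = ∑ j, (∑ i, a i j * z i) * x j := by
      have : ∀ i, z i ^ 2 = ∑ j, a i j * z i * x j := by
        intro i
        simp only [hz]
        split_ifs with hi
        · simp
        · rw [sq, Finset.sum_mul]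
          exact Finset.sum_congr rfl fun j _ => by ring
      simp_rw [this]
      rw [Finset.sum_comm]
      exact Finset.sum_congr rfl fun j _ => by rw [Finset.sum_mul]
    have h3 : (∑ i, z i ^ 2) ^ 2 ≤ (T * ∑ i, z i ^ 2) * ∑ j, x j ^ 2 := by
      calc (∑ i, z i ^ 2) ^ 2 = (∑ j, (∑ i, a i j * z i) * x j) ^ 2 := by rw [← h2]
        _ ≤ (∑ j, (∑ i, a i j * z i) ^ 2) * ∑ j, x j ^ 2 := Finset.sum_mul_sq_le_sq_mul_sq _ _ _
        _ ≤ (T * ∑ i, z i ^ 2) * ∑ j, x j ^ 2 := by
            gcongr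
            exact hI z fun i hi => by simp only [hz, if_pos hi]
    rcases (Finset.sum_nonneg fun i _ => sq_nonneg (z i) : 0 ≤ ∑ i, z i ^ 2).eq_or_lt with h4 | h4
    · rw [← h4]
      exact mul_nonneg hT (Finset.sum_nonneg fun _ _ => sq_nonneg _)
    · have h5 : (∑ i, z i ^ 2) * (∑ i, z i ^ 2) ≤ (∑ i, z i ^ 2) * (T * ∑ j, x j ^ 2) := by
        nlinarith
      exact le_of_mul_le_mul_left h5 h4
  set x' : Fin n → ℝ := fun j => if j ∈ J then 0 else x j with hx'
  have h2 : q a x' ≤ T * ∑ j, x j ^ 2 := by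
    refine (hJ x' fun j hj => by simp only [hx', if_pos hj]).trans ?_
    refine mul_le_mul_of_nonneg_left (Finset.sum_le_sum fun j _ => ?_) hT
    simp only [hx']
    split_ifs
    · simp only [ne_eq, OfNat.ofNat_ne_zero, not_false_eq_true, zero_pow]; positivity
    · exact le_rfl
  have h3 : q (fun i j => if i ∈ I ∧ j ∈ J then 0 else a i j) x ≤ ∑ i, z i ^ 2 + q a x' := by
    unfold q
    rw [← Finset.sum_add_distrib]
    refine Finset.sum_le_sum fun i _ => ?_
    by_cases hi : i ∈ I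
    · have h4 : ∑ j, (if i ∈ I ∧ j ∈ J then 0 else a i j) * x j = ∑ j, a i j * x' j := by
        refine Finset.sum_congr rfl fun j _ => ?_
        simp only [hx', hi, true_and]
        split_ifs <;> simp
      rw [h4]
      have := sq_nonneg (z i)
      linarith
    · have h4 : ∑ j, (if i ∈ I ∧ j ∈ J then 0 else a i j) * x j = z i := by
        simp only [hz, hi, if_false, false_and]
      rw [h4]
      have := sq_nonneg (∑ j, a i j * x' j)
      linarith
  linarith

end Pool.Agent.H97.Reg
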