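import Mathlib

set_option autoImplicit false

/-! Second and fourth moments of Rademacher sums, as finite averages over sign vectors. -/

open Finset

namespace Pool.Agent.H97.Reg

/-- The sign attached to a truth value. -/
def sg (b : Bool) : ℝ := if b then 1 else -1

/-- Rademacher sum. -/
def rad {N : ℕ} (σ : Fin N → Bool) (a : Fin N → ℝ) : ℝ := ∑ k, sg (σ k) * a k

lemma sum_cons {N : ℕ} (F : (Fin (N + 1) → Bool) → ℝ) :
    ∑ σ, F σ = ∑ σ : Fin N → Bool, (F (Fin.cons true σ) + F (Fin.cons false σ)) := by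
  rw [← (Fin.consEquiv (fun _ : Fin (N + 1) => Bool)).sum_comp, Fintype.sum_prod_type]
  rw [Finset.sum_add_distrib]
  simp [Fin.consEquiv]

lemma rad_cons {N : ℕ} (b : Bool) (σ : Fin N → Bool) (a : Fin (N + 1) → ℝ) :
    rad (Fin.cons b σ) a = sg b * a 0 + rad σ (fun k => a k.succ) := by
  simp [rad, Fin.sum_univ_succ]

lemma sum_rad {N : ℕ} (a : Fin N → ℝ) : ∑ σ, rad σ a = 0 := by
  induction N with
  | zero => simp [rad]
  | succ N ih =>
    rw [sum_cons]
    simp only [rad_cons, sg]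
    have h := ih (fun k => a k.succ)
    simp only [if_true, Bool.false_eq_true, if_false]
    have : ∀ σ : Fin N → Bool, (1 * a 0 + rad σ (fun k => a k.succ) +
        (-1 * a 0 + rad σ (fun k => a k.succ))) = 2 * rad σ (fun k => a k.succ) := by
      intro σ; ring
    simp_rw [this]
    rw [← Finset.mul_sum, h, mul_zero]

lemma sum_rad_sq {N : ℕ} (a : Fin N → ℝ) : ∑ σ, rad σ a ^ 2 = 2 ^ N * ∑ k, a k ^ 2 := by
  induction N with
  | zero => simp [rad]
  | succ N ih =>
    rw [sum_cons]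
    simp only [rad_cons, sg]
    have h := ih (fun k => a k.succ)
    simp only [if_true, Bool.false_eq_true, if_false]
    have : ∀ σ : Fin N → Bool, ((1 * a 0 + rad σ (fun k => a k.succ)) ^ 2 +
        (-1 * a 0 + rad σ (fun k => a k.succ)) ^ 2) =
        2 * a 0 ^ 2 + 2 * rad σ (fun k => a k.succ) ^ 2 := by
      intro σ; ring
    simp_rw [this]
    rw [Finset.sum_add_distrib]
    simp only [← Finset.mul_sum]
    rw [h, Fin.sum_univ_succ]
    simp
    ring

lemma sum_rad_four {N : ℕ} (a : Fin N → ℝ) :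
    ∑ σ, rad σ a ^ 4 ≤ 3 * 2 ^ N * (∑ k, a k ^ 2) ^ 2 := by
  induction N with
  | zero => simp [rad]
  | succ N ih =>
    rw [sum_cons]
    simp only [rad_cons, sg]
    have h := ih (fun k => a k.succ)
    have h2 := sum_rad_sq (fun k => a k.succ)
    simp only [if_true, Bool.false_eq_true, if_false]
    have : ∀ σ : Fin N → Bool, ((1 * a 0 + rad σ (fun k => a k.succ)) ^ 4 +
        (-1 * a 0 + rad σ (fun k => a k.succ)) ^ 4) =
        2 * a 0 ^ 4 + 12 * a 0 ^ 2 * rad σ (fun k => a k.succ) ^ 2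
          + 2 * rad σ (fun k => a k.succ) ^ 4 := by
      intro σ; ring
    simp_rw [this]
    rw [Finset.sum_add_distrib, Finset.sum_add_distrib]
    simp only [← Finset.mul_sum]
    rw [h2, Fin.sum_univ_succ]
    simp only [Finset.sum_const, Finset.card_univ, Fintype.card_fun, Fintype.card_bool,
      Fintype.card_fin, nsmul_eq_mul, Nat.cast_pow, Nat.cast_ofNat]
    set s := ∑ k : Fin N, a k.succ ^ 2 with hs
    set u := a 0 with hu
    have hp : (0 : ℝ) < 2 ^ N := by positivity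
    calc 2 * (2 ^ N * u ^ 4) + 12 * u ^ 2 * (2 ^ N * s) + 2 * ∑ σ, rad σ (fun k => a k.succ) ^ 4
        ≤ 2 * (2 ^ N * u ^ 4) + 12 * u ^ 2 * (2 ^ N * s) + 2 * (3 * 2 ^ N * s ^ 2) := by gcongr
      _ = 3 * 2 ^ (N + 1) * (u ^ 2 + s) ^ 2 - 4 * (2 ^ N * u ^ 4) := by
          rw [pow_succ]; ring
      _ ≤ 3 * 2 ^ (N + 1) * (u ^ 2 + s) ^ 2 := by
          have : (0 : ℝ) ≤ 2 ^ N * u ^ 4 := by positivity
          linarith

end Pool.Agent.H97.Reg
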