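import Pool.Agent.H97.Reg.Moment

set_option autoImplicit false

/-! Exponential moments for the small part: self-normalised sums. -/

open Real MeasureTheory ProbabilityTheory

namespace Pool.Agent.H97.Reg

section Self

variable {ν : Measure ℝ} [IsProbabilityMeasure ν] {f : ℝ → ℝ} {b : ℝ}

lemma entry_exp (hf : Measurable f) (hb : ∀ t, |f t| ≤ b) (h0 : ∫ t, f t ∂ν = 0)
    (h2 : ∫ t, f t ^ 2 ∂ν ≤ 1) (c : ℝ) :
    ∫⁻ t, ENNReal.ofReal (exp (c * f t - (c * f t) ^ 2 / 6)) ∂ν
      ≤ ENNReal.ofReal (exp (c ^ 2 / 3)) := by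
  have hi1 : Integrable f ν := Integrable.of_bound hf.aestronglyMeasurable b
    (Filter.Eventually.of_forall fun t => by simpa using hb t)
  have hi2 : Integrable (fun t => f t ^ 2) ν :=
    Integrable.of_bound (hf.pow_const 2).aestronglyMeasurable (b ^ 2)
      (Filter.Eventually.of_forall fun t => by
        rw [norm_eq_abs, abs_pow]
        have := hb t
        gcongr)
  calc ∫⁻ t, ENNReal.ofReal (exp (c * f t - (c * f t) ^ 2 / 6)) ∂ν
      ≤ ∫⁻ t, ENNReal.ofReal (1 + c * f t + c ^ 2 / 3 * f t ^ 2) ∂ν := by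
        refine lintegral_mono fun t => ENNReal.ofReal_le_ofReal ?_
        refine (exp_ineq _).trans (le_of_eq ?_)
        ring
    _ = ENNReal.ofReal (∫ t, (1 + c * f t + c ^ 2 / 3 * f t ^ 2) ∂ν) := by
        rw [ofReal_integral_eq_lintegral_ofReal]
        · exact ((integrable_const _).add (hi1.const_mul _)).add (hi2.const_mul _)
        · refine Filter.Eventually.of_forall fun t => ?_
          show 0 ≤ 1 + c * f t + c ^ 2 / 3 * f t ^ 2
          nlinarith [sq_nonneg (c * f t + 3 / 2)]
    _ ≤ ENNReal.ofReal (exp (c ^ 2 / 3)) := by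
        apply ENNReal.ofReal_le_ofReal
        have hi3 : Integrable (fun t => c * f t) ν := hi1.const_mul _
        have hi4 : Integrable (fun t => 1 + c * f t) ν := (integrable_const _).add hi3
        have hi5 : Integrable (fun t => c ^ 2 / 3 * f t ^ 2) ν := hi2.const_mul _
        rw [integral_add hi4 hi5, integral_add (integrable_const _) hi3, integral_const_mul,
          integral_const_mul, h0]
        simp only [integral_const, probReal_univ, smul_eq_mul, mul_one, mul_zero, add_zero]
        calc 1 + c ^ 2 / 3 * ∫ t, f t ^ 2 ∂ν ≤ 1 + c ^ 2 / 3 * 1 := by gcongr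
          _ ≤ exp (c ^ 2 / 3) := by
              have := add_one_le_exp (c ^ 2 / 3)
              linarith

variable {n : ℕ}

/-- Row sum. -/
noncomputable def SS (f : ℝ → ℝ) (x y : Fin n → ℝ) : ℝ := ∑ j, f (y j) * x j

/-- Row sum of squares. -/
noncomputable def VV (f : ℝ → ℝ) (x y : Fin n → ℝ) : ℝ := ∑ j, f (y j) ^ 2 * x j ^ 2

lemma measurable_SS (hf : Measurable f) (x : Fin n → ℝ) : Measurable (SS f x) := by
  unfold SS
  refine Finset.measurable_sum _ fun j _ => ?_
  exact (hf.comp (measurable_pi_apply j)).mul_const _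

lemma measurable_VV (hf : Measurable f) (x : Fin n → ℝ) : Measurable (VV f x) := by
  unfold VV
  refine Finset.measurable_sum _ fun j _ => ?_
  exact ((hf.comp (measurable_pi_apply j)).pow_const 2).mul_const _

lemma VV_nonneg (f : ℝ → ℝ) (x y : Fin n → ℝ) : 0 ≤ VV f x y :=
  Finset.sum_nonneg fun _ _ => by positivity

lemma row_exp (hf : Measurable f) (hb : ∀ t, |f t| ≤ b) (h0 : ∫ t, f t ∂ν = 0)
    (h2 : ∫ t, f t ^ 2 ∂ν ≤ 1) (x : Fin n → ℝ) (t : ℝ) :
    ∫⁻ y, ENNReal.ofReal (exp (t * SS f x y - t ^ 2 * VV f x y / 6))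
      ∂(Measure.infinitePi (fun _ : Fin n => ν)) ≤ ENNReal.ofReal (exp (t ^ 2 * (∑ j, x j ^ 2) / 3))
      := by
  have h1 : ∀ y : Fin n → ℝ, ENNReal.ofReal (exp (t * SS f x y - t ^ 2 * VV f x y / 6)) =
      ∏ j, ENNReal.ofReal (exp (t * x j * f (y j) - (t * x j * f (y j)) ^ 2 / 6)) := by
    intro y
    rw [← ENNReal.ofReal_prod_of_nonneg (fun _ _ => (exp_pos _).le), ← exp_sum]
    congr 2
    rw [SS, VV, Finset.sum_sub_distrib, Finset.mul_sum, Finset.mul_sum, Finset.sum_div]
    congr 1
    · exact Finset.sum_congr rfl fun j _ => by ring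
    · exact Finset.sum_congr rfl fun j _ => by ring
  simp_rw [h1]
  rw [lintegral_prod_pi ν (fun (j : Fin n) u =>
    ENNReal.ofReal (exp (t * x j * f u - (t * x j * f u) ^ 2 / 6))) (fun j => by fun_prop)]
  calc _ ≤ ∏ j, ENNReal.ofReal (exp ((t * x j) ^ 2 / 3)) :=
        Finset.prod_le_prod' fun j _ => entry_exp hf hb h0 h2 (t * x j)
    _ = _ := by
        rw [← ENNReal.ofReal_prod_of_nonneg (fun _ _ => (exp_pos _).le), ← exp_sum]
        congr 2
        rw [Finset.mul_sum, Finset.sum_div]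
        exact Finset.sum_congr rfl fun j _ => by ring

lemma row_cosh (hf : Measurable f) (hb : ∀ t, |f t| ≤ b) (h0 : ∫ t, f t ∂ν = 0)
    (h2 : ∫ t, f t ^ 2 ∂ν ≤ 1) (x : Fin n → ℝ) (t : ℝ) :
    ∫⁻ y, ENNReal.ofReal (cosh (t * SS f x y) * exp (-(t ^ 2 * VV f x y / 6)))
      ∂(Measure.infinitePi (fun _ : Fin n => ν)) ≤
        ENNReal.ofReal (exp (t ^ 2 * (∑ j, x j ^ 2) / 3)) := by
  have hS := measurable_SS (n := n) hf x
  have hV := measurable_VV (n := n) hf x
  have h1 : ∀ y : Fin n → ℝ, ENNReal.ofReal (cosh (t * SS f x y) * exp (-(t ^ 2 * VV f x y / 6))) =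
      ENNReal.ofReal (1 / 2) * (ENNReal.ofReal (exp (t * SS f x y - t ^ 2 * VV f x y / 6)) +
      ENNReal.ofReal (exp ((-t) * SS f x y - (-t) ^ 2 * VV f x y / 6))) := by
    intro y
    rw [← ENNReal.ofReal_add (exp_pos _).le (exp_pos _).le, ← ENNReal.ofReal_mul (by norm_num)]
    congr 1
    rw [cosh_eq, sub_eq_add_neg, exp_add, sub_eq_add_neg, exp_add, neg_sq, neg_mul]
    ring
  simp_rw [h1]
  rw [lintegral_const_mul _ (by fun_prop), lintegral_add_left (by fun_prop)]
  calc _ ≤ ENNReal.ofReal (1 / 2) * (ENNReal.ofReal (exp (t ^ 2 * (∑ j, x j ^ 2) / 3)) +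
        ENNReal.ofReal (exp ((-t) ^ 2 * (∑ j, x j ^ 2) / 3))) := by
        gcongr
        · exact row_exp hf hb h0 h2 x t
        · exact row_exp hf hb h0 h2 x (-t)
    _ = _ := by
        rw [neg_sq, ← ENNReal.ofReal_add (exp_pos _).le (exp_pos _).le,
          ← ENNReal.ofReal_mul (by norm_num)]
        congr 1
        ring

lemma row_VV (hf : Measurable f) (hb : ∀ t, |f t| ≤ b) (h2 : ∫ t, f t ^ 2 ∂ν ≤ 1)
    (x : Fin n → ℝ) :
    ∫⁻ y, ENNReal.ofReal (VV f x y) ∂(Measure.infinitePi (fun _ : Fin n => ν))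
      ≤ ENNReal.ofReal (∑ j, x j ^ 2) := by
  have hi2 : Integrable (fun t => f t ^ 2) ν :=
    Integrable.of_bound (hf.pow_const 2).aestronglyMeasurable (b ^ 2)
      (Filter.Eventually.of_forall fun t => by
        rw [norm_eq_abs, abs_pow]
        have := hb t
        gcongr)
  have h1 : ∀ y : Fin n → ℝ, ENNReal.ofReal (VV f x y) =
      ∑ j, ENNReal.ofReal (x j ^ 2) * ENNReal.ofReal (f (y j) ^ 2) := by
    intro y
    rw [VV, ENNReal.ofReal_sum_of_nonneg (fun _ _ => by positivity)]
    refine Finset.sum_congr rfl fun j _ => ?_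
    rw [← ENNReal.ofReal_mul (by positivity), mul_comm]
  simp_rw [h1]
  rw [lintegral_finsetSum]
  · rw [ENNReal.ofReal_sum_of_nonneg (fun _ _ => by positivity)]
    refine Finset.sum_le_sum fun j _ => ?_
    have h3 : ∫⁻ y : Fin n → ℝ, ENNReal.ofReal (x j ^ 2) * ENNReal.ofReal (f (y j) ^ 2)
        ∂(Measure.infinitePi (fun _ : Fin n => ν)) =
        ENNReal.ofReal (x j ^ 2) * ∫⁻ t, ENNReal.ofReal (f t ^ 2) ∂ν := by
      rw [lintegral_const_mul]
      · congr 1
        exact (measurePreserving_eval_infinitePi (fun _ : Fin n => ν) j).lintegral_comp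
          (f := fun t => ENNReal.ofReal (f t ^ 2)) (by fun_prop)
      · have := hf.comp (measurable_pi_apply (X := fun _ : Fin n => ℝ) j)
        exact (this.pow_const 2).ennreal_ofReal
    rw [h3, ← ofReal_integral_eq_lintegral_ofReal hi2
      (Filter.Eventually.of_forall fun t => sq_nonneg _)]
    calc _ ≤ ENNReal.ofReal (x j ^ 2) * ENNReal.ofReal 1 := by
          gcongr
      _ = _ := by simp
  · intro j _
    have := hf.comp (measurable_pi_apply (X := fun _ : Fin n => ℝ) j)
    exact (this.pow_const 2).ennreal_ofReal.const_mul _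

lemma row_key (hf : Measurable f) (hb : ∀ t, |f t| ≤ b) (h0 : ∫ t, f t ∂ν = 0)
    (h2 : ∫ t, f t ^ 2 ∂ν ≤ 1) (x : Fin n → ℝ) (t : ℝ) {R : ℝ} (hR : ∑ j, x j ^ 2 ≤ R) :
    ∫⁻ y, {y | VV f x y ≤ R}.indicator (fun y => ENNReal.ofReal (cosh (t * SS f x y) - 1)) y
      ∂(Measure.infinitePi (fun _ : Fin n => ν)) ≤
        ENNReal.ofReal (t ^ 2 * (∑ j, x j ^ 2) / 2 * exp (t ^ 2 * R / 2)) := by
  have hS := measurable_SS (n := n) hf x
  have hV := measurable_VV (n := n) hf x
  set s := ∑ j, x j ^ 2 with hs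
  have hs0 : 0 ≤ s := Finset.sum_nonneg fun _ _ => sq_nonneg _
  set X : (Fin n → ℝ) → ℝ := fun y =>
    cosh (t * SS f x y) * exp (-(t ^ 2 * VV f x y / 6)) - 1 + t ^ 2 * VV f x y / 6 with hX
  have hX0 : ∀ y, 0 ≤ X y := by
    intro y
    have h3 := one_le_cosh (t * SS f x y)
    have h4 := add_one_le_exp (-(t ^ 2 * VV f x y / 6))
    have h5 := exp_pos (-(t ^ 2 * VV f x y / 6))
    simp only [hX]
    nlinarith
  have hXm : Measurable X := by
    simp only [hX]
    have h3 : Measurable (fun y : Fin n → ℝ => cosh (t * SS f x y)) :=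
      measurable_cosh.comp (hS.const_mul t)
    fun_prop
  have h3 : ∫⁻ y, ENNReal.ofReal (X y) ∂(Measure.infinitePi (fun _ : Fin n => ν))
      ≤ ENNReal.ofReal (exp (t ^ 2 * s / 3) + t ^ 2 * s / 6 - 1) := by
    have h4 : ∫⁻ y, ENNReal.ofReal (X y) ∂(Measure.infinitePi (fun _ : Fin n => ν)) + 1 ≤
        ENNReal.ofReal (exp (t ^ 2 * s / 3) + t ^ 2 * s / 6) := by
      calc ∫⁻ y, ENNReal.ofReal (X y) ∂(Measure.infinitePi (fun _ : Fin n => ν)) + 1
          = ∫⁻ y, (ENNReal.ofReal (X y) + 1) ∂(Measure.infinitePi (fun _ : Fin n => ν)) := by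
            rw [lintegral_add_right _ measurable_const]
            simp
        _ = ∫⁻ y, (ENNReal.ofReal (cosh (t * SS f x y) * exp (-(t ^ 2 * VV f x y / 6))) +
              ENNReal.ofReal (t ^ 2 / 6) * ENNReal.ofReal (VV f x y))
              ∂(Measure.infinitePi (fun _ : Fin n => ν)) := by
            refine lintegral_congr fun y => ?_
            have h5 := VV_nonneg f x y
            rw [← ENNReal.ofReal_one, ← ENNReal.ofReal_add (hX0 y) (by norm_num),
              ← ENNReal.ofReal_mul (by positivity), ← ENNReal.ofReal_add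
              (mul_nonneg (cosh_pos _).le (exp_pos _).le) (by positivity)]
            congr 1
            simp only [hX]
            ring
        _ = ∫⁻ y, ENNReal.ofReal (cosh (t * SS f x y) * exp (-(t ^ 2 * VV f x y / 6)))
              ∂(Measure.infinitePi (fun _ : Fin n => ν)) +
              ENNReal.ofReal (t ^ 2 / 6) * ∫⁻ y, ENNReal.ofReal (VV f x y)
              ∂(Measure.infinitePi (fun _ : Fin n => ν)) := by
            rw [lintegral_add_right _ (by fun_prop), lintegral_const_mul _ (by fun_prop)]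
        _ ≤ ENNReal.ofReal (exp (t ^ 2 * s / 3)) + ENNReal.ofReal (t ^ 2 / 6) *
              ENNReal.ofReal s := by
            gcongr
            · exact row_cosh hf hb h0 h2 x t
            · exact row_VV hf hb h2 x
        _ = _ := by
            rw [← ENNReal.ofReal_mul (by positivity), ← ENNReal.ofReal_add (exp_pos _).le
              (by positivity)]
            congr 1
            ring
    rw [ENNReal.ofReal_sub _ (by norm_num), ENNReal.ofReal_one]
    exact ENNReal.le_sub_of_add_le_right (by simp) h4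
  calc ∫⁻ y, {y | VV f x y ≤ R}.indicator (fun y => ENNReal.ofReal (cosh (t * SS f x y) - 1)) y
        ∂(Measure.infinitePi (fun _ : Fin n => ν))
      ≤ ∫⁻ y, ENNReal.ofReal (exp (t ^ 2 * R / 6)) * ENNReal.ofReal (X y)
        ∂(Measure.infinitePi (fun _ : Fin n => ν)) := by
        refine lintegral_mono fun y => ?_
        by_cases hy : VV f x y ≤ R
        · rw [Set.indicator_of_mem (show y ∈ {y | VV f x y ≤ R} from hy),
            ← ENNReal.ofReal_mul (exp_pos _).le]
          apply ENNReal.ofReal_le_ofReal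
          set w := t ^ 2 * VV f x y / 6 with hw
          have hw1 : w ≤ t ^ 2 * R / 6 := by rw [hw]; gcongr
          have h5 : exp w * X y = cosh (t * SS f x y) - exp w + w * exp w := by
            simp only [hX, ← hw]
            have h6 : exp w * exp (-w) = 1 := by rw [← exp_add]; simp
            calc exp w * (cosh (t * SS f x y) * exp (-w) - 1 + w)
                = cosh (t * SS f x y) * (exp w * exp (-w)) - exp w + w * exp w := by ring
              _ = _ := by rw [h6, mul_one]
          have h6 : exp w - w * exp w ≤ 1 := by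
            have h7 := add_one_le_exp (-w)
            have h8 : exp w * exp (-w) = 1 := by rw [← exp_add]; simp
            nlinarith [exp_pos w]
          calc cosh (t * SS f x y) - 1 ≤ exp w * X y := by rw [h5]; linarith
            _ ≤ exp (t ^ 2 * R / 6) * X y := by
                apply mul_le_mul_of_nonneg_right (exp_le_exp.2 hw1) (hX0 y)
        · rw [Set.indicator_of_notMem (show y ∉ {y | VV f x y ≤ R} from hy)]
          exact zero_le
    _ = ENNReal.ofReal (exp (t ^ 2 * R / 6)) * ∫⁻ y, ENNReal.ofReal (X y)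
        ∂(Measure.infinitePi (fun _ : Fin n => ν)) := by
        rw [lintegral_const_mul _ hXm.ennreal_ofReal]
    _ ≤ ENNReal.ofReal (exp (t ^ 2 * R / 6)) *
        ENNReal.ofReal (exp (t ^ 2 * s / 3) + t ^ 2 * s / 6 - 1) := by gcongr
    _ ≤ _ := by
        rw [← ENNReal.ofReal_mul (exp_pos _).le]
        apply ENNReal.ofReal_le_ofReal
        set v := t ^ 2 * s / 3 with hv
        have hv0 : 0 ≤ v := by positivity
        have h5 : exp v - 1 ≤ v * exp v := by
          have h7 := add_one_le_exp (-v)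
          have h8 : exp v * exp (-v) = 1 := by rw [← exp_add]; simp
          nlinarith [exp_pos v]
        have h6 : (1 : ℝ) ≤ exp v := one_le_exp hv0
        have h7 : exp v + t ^ 2 * s / 6 - 1 ≤ t ^ 2 * s / 2 * exp v := by
          have h8 : t ^ 2 * s / 6 = v / 2 := by rw [hv]; ring
          have h9 : t ^ 2 * s / 2 = 3 / 2 * v := by rw [hv]; ring
          rw [h8, h9]
          nlinarith
        calc exp (t ^ 2 * R / 6) * (exp v + t ^ 2 * s / 6 - 1)
            ≤ exp (t ^ 2 * R / 6) * (t ^ 2 * s / 2 * exp v) := by gcongr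
          _ = t ^ 2 * s / 2 * exp (t ^ 2 * R / 6 + v) := by rw [exp_add]; ring
          _ ≤ t ^ 2 * s / 2 * exp (t ^ 2 * R / 2) := by
              gcongr
              have : t ^ 2 * s ≤ t ^ 2 * R := by gcongr
              rw [hv]
              linarith

/-- Exponential moment of the square of a row sum on the event that the sum of squares is
at most `R`. -/
theorem row_sq (hf : Measurable f) (hb : ∀ t, |f t| ≤ b) (h0 : ∫ t, f t ∂ν = 0)
    (h2 : ∫ t, f t ^ 2 ∂ν ≤ 1) (x : Fin n → ℝ) {R : ℝ} (hR0 : 0 < R) (hR : ∑ j, x j ^ 2 ≤ R) :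
    ∫⁻ y, {y | VV f x y ≤ R}.indicator
      (fun y => ENNReal.ofReal (exp (1 / (8 * R) * SS f x y ^ 2) - 1)) y
      ∂(Measure.infinitePi (fun _ : Fin n => ν)) ≤
        ENNReal.ofReal (12 * (1 / (8 * R)) * (∑ j, x j ^ 2)) := by
  have hS := measurable_SS (n := n) hf x
  have hV := measurable_VV (n := n) hf x
  set s := ∑ j, x j ^ 2 with hs
  have hs0 : 0 ≤ s := Finset.sum_nonneg fun _ _ => sq_nonneg _
  set θ := 1 / (8 * R) with hθ
  have hθ0 : 0 < θ := by positivity
  have hθR : θ * R = 1 / 8 := by rw [hθ]; field_simp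
  have h3 : ∀ S : ℝ, ∫⁻ g, ENNReal.ofReal (cosh (√(2 * θ) * g * S) - 1) ∂(gaussianReal 0 1)
      = ENNReal.ofReal (exp (θ * S ^ 2) - 1) := by
    intro S
    have h4 := gauss_cosh (√(2 * θ) * S)
    have h5 : (√(2 * θ) * S) ^ 2 / 2 = θ * S ^ 2 := by
      rw [mul_pow, sq_sqrt (by positivity)]; ring
    rw [h5] at h4
    have h6 : ∫⁻ g, ENNReal.ofReal (cosh (√(2 * θ) * g * S) - 1) ∂(gaussianReal 0 1) + 1 =
        ENNReal.ofReal (exp (θ * S ^ 2)) := by
      rw [← h4]
      have h7 : ∀ g : ℝ, ENNReal.ofReal (cosh (√(2 * θ) * S * g)) =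
          ENNReal.ofReal (cosh (√(2 * θ) * g * S) - 1) + 1 := by
        intro g
        rw [← ENNReal.ofReal_one, ← ENNReal.ofReal_add
          (by linarith [one_le_cosh (√(2 * θ) * g * S)]) (by norm_num)]
        congr 1
        have : √(2 * θ) * S * g = √(2 * θ) * g * S := by ring
        rw [this]
        ring
      simp_rw [h7]
      rw [lintegral_add_right _ measurable_const]
      simp
    rw [ENNReal.ofReal_sub _ (by norm_num), ENNReal.ofReal_one, ← h6]
    exact (ENNReal.add_sub_cancel_right (by simp)).symm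
  have hmeas : MeasurableSet {y : Fin n → ℝ | VV f x y ≤ R} := measurableSet_le hV measurable_const
  calc ∫⁻ y, {y | VV f x y ≤ R}.indicator
        (fun y => ENNReal.ofReal (exp (θ * SS f x y ^ 2) - 1)) y
        ∂(Measure.infinitePi (fun _ : Fin n => ν))
      = ∫⁻ y, ∫⁻ g, {y | VV f x y ≤ R}.indicator
        (fun y => ENNReal.ofReal (cosh (√(2 * θ) * g * SS f x y) - 1)) y ∂(gaussianReal 0 1)
        ∂(Measure.infinitePi (fun _ : Fin n => ν)) := by
        refine lintegral_congr fun y => ?_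
        by_cases hy : y ∈ {y | VV f x y ≤ R}
        · simp only [Set.indicator_of_mem hy]
          rw [h3]
        · simp only [Set.indicator_of_notMem hy]
          simp
    _ = ∫⁻ g, ∫⁻ y, {y | VV f x y ≤ R}.indicator
        (fun y => ENNReal.ofReal (cosh (√(2 * θ) * g * SS f x y) - 1)) y
        ∂(Measure.infinitePi (fun _ : Fin n => ν)) ∂(gaussianReal 0 1) := by
        rw [lintegral_lintegral_swap]
        have h4 : Measurable (fun p : (Fin n → ℝ) × ℝ => {p : (Fin n → ℝ) × ℝ | VV f x p.1 ≤ R}.indicator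
            (fun p => ENNReal.ofReal (cosh (√(2 * θ) * p.2 * SS f x p.1) - 1)) p) := by
          refine Measurable.indicator ?_ (measurable_fst hmeas)
          have h5 : Measurable (fun p : (Fin n → ℝ) × ℝ => cosh (√(2 * θ) * p.2 * SS f x p.1)) :=
            measurable_cosh.comp ((measurable_snd.const_mul _).mul (hS.comp measurable_fst))
          fun_prop
        exact h4.aemeasurable
    _ ≤ ∫⁻ g, ENNReal.ofReal (8 * θ * s) * ENNReal.ofReal (exp (g ^ 2 / 4))
        ∂(gaussianReal 0 1) := by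
        refine lintegral_mono fun g => ?_
        refine (row_key hf hb h0 h2 x (√(2 * θ) * g) hR).trans ?_
        rw [← ENNReal.ofReal_mul (by positivity)]
        apply ENNReal.ofReal_le_ofReal
        rw [← hs, mul_pow, sq_sqrt (by positivity)]
        have h4 : 2 * θ * g ^ 2 * R / 2 = g ^ 2 / 8 := by
          calc 2 * θ * g ^ 2 * R / 2 = θ * R * g ^ 2 := by ring
            _ = g ^ 2 / 8 := by rw [hθR]; ring
        have h5 : g ^ 2 ≤ 8 * exp (g ^ 2 / 8) := by
          have := add_one_le_exp (g ^ 2 / 8)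
          linarith
        rw [h4]
        calc 2 * θ * g ^ 2 * s / 2 * exp (g ^ 2 / 8) = θ * s * (g ^ 2 * exp (g ^ 2 / 8)) := by ring
          _ ≤ θ * s * (8 * exp (g ^ 2 / 8) * exp (g ^ 2 / 8)) := by gcongr
          _ = 8 * θ * s * exp (g ^ 2 / 4) := by
              have : exp (g ^ 2 / 4) = exp (g ^ 2 / 8) * exp (g ^ 2 / 8) := by
                rw [← exp_add]; congr 1; ring
              rw [this]; ring
    _ = ENNReal.ofReal (8 * θ * s) * ∫⁻ g, ENNReal.ofReal (exp (g ^ 2 / 4))
        ∂(gaussianReal 0 1) := by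
        rw [lintegral_const_mul _ (by fun_prop)]
    _ ≤ ENNReal.ofReal (8 * θ * s) * ENNReal.ofReal (3 / 2) := by
        gcongr
        exact gauss_quarter
    _ = ENNReal.ofReal (12 * θ * s) := by
        rw [← ENNReal.ofReal_mul (by positivity)]
        congr 1
        ring

end Self

end Pool.Agent.H97.Reg
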